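import Mathlib

set_option autoImplicit false

/-!
# Averages over boxes moving along a vector
-/

open MeasureTheory Set Filter Topology ENNReal NNReal

namespace Pool.Agent.TH225.CK

/-- The uniform probability measure on `[-ρ, ρ]`. -/
noncomputable def un (ρ : ℝ) : Measure ℝ :=
  (ENNReal.ofReal (2 * ρ))⁻¹ • volume.restrict (Icc (-ρ) ρ)

theorem un_prob {ρ : ℝ} (hρ : 0 < ρ) : IsProbabilityMeasure (un ρ) := by
  constructor
  unfold un
  rw [Measure.smul_apply, Measure.restrict_apply_univ, Real.volume_Icc, smul_eq_mul]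
  have : ρ - -ρ = 2 * ρ := by ring
  rw [this]
  exact ENNReal.inv_mul_cancel (by simpa using hρ) ENNReal.ofReal_ne_top

theorem lintegral_un {ρ : ℝ} (g : ℝ → ℝ≥0∞) :
    ∫⁻ σ, g σ ∂(un ρ) = (ENNReal.ofReal (2 * ρ))⁻¹ * ∫⁻ σ in Icc (-ρ) ρ, g σ := by
  unfold un
  rw [lintegral_smul_measure, smul_eq_mul]

/-- The uniform probability measure on the cube `[-ρ, ρ]^ι`. -/
noncomputable def bx (ι : Type) [Fintype ι] (ρ : ℝ) : Measure (ι → ℝ) :=
  Measure.pi fun _ => un ρ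

theorem bx_prob (ι : Type) [Fintype ι] {ρ : ℝ} (hρ : 0 < ρ) : IsProbabilityMeasure (bx ι ρ) := by
  have := un_prob hρ
  unfold bx
  infer_instance

theorem pi_smul_const (ι : Type) [Fintype ι] (c : ℝ≥0∞) (hc : c ≠ ∞) (μ : Measure ℝ)
    [IsFiniteMeasure μ] : Measure.pi (fun _ : ι => c • μ) =
      c ^ Fintype.card ι • Measure.pi (fun _ : ι => μ) := by
  have : IsFiniteMeasure (c • μ) := Measure.smul_finite μ hc
  symm
  refine (Measure.pi_eq (fun s hs => ?_)).symm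
  rw [Measure.smul_apply, Measure.pi_pi, smul_eq_mul]
  simp only [Measure.smul_apply, smul_eq_mul]
  rw [Finset.prod_mul_distrib, Finset.prod_const, Finset.card_univ]

theorem bx_eq (ι : Type) [Fintype ι] {ρ : ℝ} (hρ : 0 < ρ) : bx ι ρ =
    ((ENNReal.ofReal (2 * ρ))⁻¹) ^ Fintype.card ι •
      volume.restrict (Set.univ.pi fun _ : ι => Icc (-ρ) ρ) := by
  unfold bx un
  rw [pi_smul_const ι _ (ENNReal.inv_ne_top.2 (by simpa using hρ)), volume_pi,
    Measure.restrict_pi_pi]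

theorem bx_le (ι : Type) [Fintype ι] {ρ : ℝ} (hρ : 0 < ρ) (h : (ι → ℝ) → ℝ≥0∞) :
    ∫⁻ x, h x ∂(bx ι ρ) ≤ ((ENNReal.ofReal (2 * ρ))⁻¹) ^ Fintype.card ι * ∫⁻ x, h x := by
  rw [bx_eq ι hρ, lintegral_smul_measure, smul_eq_mul]
  gcongr
  exact Measure.restrict_le_self

/-- The average of `F` over the box with centre `a` moving along `v`. -/
noncomputable def Av {ι : Type} [Fintype ι] (ρ : ℝ) (F : (ι → ℝ) → ℝ≥0∞) (v a : ι → ℝ) : ℝ≥0∞ :=
  ∫⁻ t, ∫⁻ w, F (a + t • v + w) ∂(bx ι ρ) ∂(un 1)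

/-- The maximal function (over rational centres). -/
noncomputable def NN {ι : Type} [Fintype ι] (ρ : ℝ) (F : (ι → ℝ) → ℝ≥0∞) (v : ι → ℝ) : ℝ≥0∞ :=
  ⨆ q : ι → ℚ, Av ρ F v (fun i => (q i : ℝ))

variable {ι : Type} [Fintype ι]

set_option linter.unusedSectionVars false

theorem measurable_in {ρ : ℝ} (hρ : 0 < ρ) {F : (ι → ℝ) → ℝ≥0∞} (hF : Measurable F)
    (a : ι → ℝ) : Measurable (fun q : (ι → ℝ) × ℝ => ∫⁻ w, F (a + q.2 • q.1 + w) ∂(bx ι ρ)) := by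
  have := bx_prob ι hρ
  have h1 : Measurable (fun q : ((ι → ℝ) × ℝ) × (ι → ℝ) => F (a + q.1.2 • q.1.1 + q.2)) := by
    apply hF.comp
    fun_prop
  exact Measurable.lintegral_prod_right' (f := fun q : ((ι → ℝ) × ℝ) × (ι → ℝ) =>
    F (a + q.1.2 • q.1.1 + q.2)) h1

theorem measurable_Av {ρ : ℝ} (hρ : 0 < ρ) {F : (ι → ℝ) → ℝ≥0∞} (hF : Measurable F)
    (a : ι → ℝ) : Measurable (fun v => Av ρ F v a) := by
  have := un_prob (one_pos)
  exact Measurable.lintegral_prod_right' (measurable_in hρ hF a)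

theorem measurable_NN {ρ : ℝ} (hρ : 0 < ρ) {F : (ι → ℝ) → ℝ≥0∞} (hF : Measurable F) :
    Measurable (NN ρ F) := by
  unfold NN
  exact Measurable.iSup fun q => measurable_Av hρ hF _

theorem Av_mono {ρ : ℝ} {F G : (ι → ℝ) → ℝ≥0∞} (h : ∀ x, F x ≤ G x) (v a : ι → ℝ) :
    Av ρ F v a ≤ Av ρ G v a :=
  lintegral_mono fun _ => lintegral_mono fun _ => h _

theorem NN_mono {ρ : ℝ} {F G : (ι → ℝ) → ℝ≥0∞} (h : ∀ x, F x ≤ G x) (v : ι → ℝ) :
    NN ρ F v ≤ NN ρ G v :=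
  iSup_mono fun _ => Av_mono h _ _

theorem Av_le_NN {ρ : ℝ} {F : (ι → ℝ) → ℝ≥0∞} (v : ι → ℝ) (q : ι → ℚ) :
    Av ρ F v (fun i => (q i : ℝ)) ≤ NN ρ F v := le_iSup (fun q : ι → ℚ => Av ρ F v (fun i => (q i : ℝ))) q

/-! ### Splitting the coordinates -/

/-- The point with the coordinates `x` in the block `p` and `z` outside. -/
def gl (p : ι → Prop) [DecidablePred p] (x : {i // p i} → ℝ) (z : {i // ¬ p i} → ℝ) : ι → ℝ :=
  fun i => if h : p i then x ⟨i, h⟩ else z ⟨i, h⟩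

theorem gl_eq (p : ι → Prop) [DecidablePred p] (x : {i // p i} → ℝ) (z : {i // ¬ p i} → ℝ) :
    gl p x z = (MeasurableEquiv.piEquivPiSubtypeProd (fun _ : ι => ℝ) p).symm (x, z) := rfl

theorem gl_self (p : ι → Prop) [DecidablePred p] (v : ι → ℝ) :
    gl p (fun i => v i) (fun i => v i) = v := by
  funext i
  unfold gl
  split_ifs <;> rfl

theorem gl_add (p : ι → Prop) [DecidablePred p] (x x' : {i // p i} → ℝ) (z z' : {i // ¬ p i} → ℝ) :
    gl p x z + gl p x' z' = gl p (x + x') (z + z') := by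
  funext i
  simp only [gl, Pi.add_apply]
  split_ifs <;> rfl

theorem gl_smul (p : ι → Prop) [DecidablePred p] (t : ℝ) (x : {i // p i} → ℝ)
    (z : {i // ¬ p i} → ℝ) : t • gl p x z = gl p (t • x) (t • z) := by
  funext i
  simp only [gl, Pi.smul_apply]
  split_ifs <;> rfl

theorem measurable_gl (p : ι → Prop) [DecidablePred p] :
    Measurable (fun q : ({i // p i} → ℝ) × ({i // ¬ p i} → ℝ) => gl p q.1 q.2) :=
  (MeasurableEquiv.piEquivPiSubtypeProd (fun _ : ι => ℝ) p).symm.measurable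

theorem lint_split (μ : Measure ℝ) [SigmaFinite μ] (p : ι → Prop) [DecidablePred p]
    {H : (ι → ℝ) → ℝ≥0∞} (hH : Measurable H) :
    ∫⁻ w, H w ∂(Measure.pi fun _ : ι => μ) =
      ∫⁻ x, ∫⁻ z, H (gl p x z) ∂(Measure.pi fun _ : {i // ¬ p i} => μ)
        ∂(Measure.pi fun _ : {i // p i} => μ) := by
  have h := measurePreserving_piEquivPiSubtypeProd (fun _ : ι => μ) p
  have h2 := (h.symm (MeasurableEquiv.piEquivPiSubtypeProd (fun _ : ι => ℝ) p)).lintegral_comp hH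
  have h3 : Measurable (fun q : ({i // p i} → ℝ) × ({i // ¬ p i} → ℝ) =>
      H ((MeasurableEquiv.piEquivPiSubtypeProd (fun _ : ι => ℝ) p).symm q)) :=
    hH.comp (MeasurableEquiv.measurable _)
  rw [← h2, lintegral_prod _ h3.aemeasurable]
  rfl

theorem lint_split' (μ : Measure ℝ) [SigmaFinite μ] (p : ι → Prop) [DecidablePred p]
    {H : (ι → ℝ) → ℝ≥0∞} (hH : Measurable H) :
    ∫⁻ w, H w ∂(Measure.pi fun _ : ι => μ) =
      ∫⁻ z, ∫⁻ x, H (gl p x z) ∂(Measure.pi fun _ : {i // p i} => μ)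
        ∂(Measure.pi fun _ : {i // ¬ p i} => μ) := by
  rw [lint_split μ p hH]
  exact lintegral_lintegral_swap (hH.comp (measurable_gl p)).aemeasurable

/-! ### Inequalities of Jensen and Hoelder -/

theorem jensen {α : Type*} [MeasurableSpace α] (μ : Measure α) [IsProbabilityMeasure μ]
    {g : α → ℝ≥0∞} (hg : AEMeasurable g μ) {s : ℝ} (hs : 1 ≤ s) :
    (∫⁻ x, g x ∂μ) ^ s ≤ ∫⁻ x, g x ^ s ∂μ := by
  have hs0 : 0 < s := by linarith
  have h1 := ENNReal.lintegral_mul_norm_pow_le (μ := μ) (f := fun x => g x ^ s)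
    (g := fun _ => 1) (hg.pow_const _) aemeasurable_const (p := 1 / s)
    (q := 1 - 1 / s) (by positivity) (by
      rw [sub_nonneg, div_le_one hs0]; exact hs) (by ring)
  have h2 : ∀ x, (g x ^ s) ^ (1 / s) = g x := by
    intro x
    rw [← ENNReal.rpow_mul, mul_one_div_cancel hs0.ne', ENNReal.rpow_one]
  simp only [ENNReal.one_rpow, mul_one, h2, lintegral_const, measure_univ] at h1
  calc (∫⁻ x, g x ∂μ) ^ s ≤ ((∫⁻ x, g x ^ s ∂μ) ^ (1 / s)) ^ s :=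
        ENNReal.rpow_le_rpow h1 hs0.le
    _ = _ := by
        rw [← ENNReal.rpow_mul, one_div_mul_cancel hs0.ne', ENNReal.rpow_one]

theorem holder {α : Type*} [MeasurableSpace α] (μ : Measure α) {φ ψ : α → ℝ≥0∞}
    (hφ : AEMeasurable φ μ) (hψ : AEMeasurable ψ μ) (hφ1 : ∀ t, φ t ≤ 1) {d k : ℕ} (hd : 1 ≤ d)
    (hk : 1 ≤ k) {θ : ℝ} (hθ : (d : ℝ) / ((d + k : ℕ) : ℝ) ≤ θ) :
    (∫⁻ t, φ t ^ θ * ψ t ∂μ) ^ (d + k) ≤
      (∫⁻ t, φ t ∂μ) ^ d * (∫⁻ t, ψ t ^ (((d + k : ℕ) : ℝ) / k) ∂μ) ^ k := by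
  have hd0 : (0 : ℝ) < d := by exact_mod_cast hd
  have hk0 : (0 : ℝ) < k := by exact_mod_cast hk
  have hn0 : (0 : ℝ) < ((d + k : ℕ) : ℝ) := by push_cast; linarith
  set n : ℝ := ((d + k : ℕ) : ℝ) with hn
  have hnd : n = d + k := by rw [hn]; push_cast; ring
  have hθ' : 1 ≤ θ * (n / d) := by
    rw [mul_div_assoc', le_div_iff₀ hd0, one_mul]
    rwa [div_le_iff₀ hn0] at hθ
  have h1 := ENNReal.lintegral_mul_norm_pow_le (μ := μ) (f := fun t => φ t ^ (θ * (n / d)))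
    (g := fun t => ψ t ^ (n / k)) (hφ.pow_const _) (hψ.pow_const _) (p := d / n)
    (q := k / n) (by positivity) (by positivity) (by
      rw [← add_div, ← hnd, div_self hn0.ne'])
  have e1 : ∀ t, (φ t ^ (θ * (n / d))) ^ (d / n) * (ψ t ^ (n / k)) ^ (k / n) = φ t ^ θ * ψ t := by
    intro t
    rw [← ENNReal.rpow_mul, ← ENNReal.rpow_mul]
    have e2 : θ * (n / d) * (d / n) = θ := by field_simp
    have e3 : n / k * (k / n) = 1 := by field_simp
    rw [e2, e3, ENNReal.rpow_one]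
  simp only [e1] at h1
  have h2 : ∫⁻ t, φ t ^ (θ * (n / d)) ∂μ ≤ ∫⁻ t, φ t ∂μ := by
    apply lintegral_mono
    intro t
    calc φ t ^ (θ * (n / d)) ≤ φ t ^ (1 : ℝ) := ENNReal.rpow_le_rpow_of_exponent_ge (hφ1 t) hθ'
      _ = φ t := ENNReal.rpow_one _
  have h3 : (∫⁻ t, φ t ^ θ * ψ t ∂μ) ^ (d + k) ≤
      ((∫⁻ t, φ t ∂μ) ^ (d / n) * (∫⁻ t, ψ t ^ (n / k) ∂μ) ^ (k / n)) ^ (d + k) := by
    gcongr
    refine h1.trans ?_
    gcongr
  refine h3.trans (le_of_eq ?_)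
  rw [mul_pow, ← ENNReal.rpow_natCast, ← ENNReal.rpow_natCast, ← ENNReal.rpow_mul,
    ← ENNReal.rpow_mul, ← hn]
  have e4 : (d : ℝ) / n * n = d := by field_simp
  have e5 : (k : ℝ) / n * n = k := by field_simp
  rw [e4, e5, ENNReal.rpow_natCast, ENNReal.rpow_natCast]

end Pool.Agent.TH225.CK
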