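import Pool.Agent.TH225.CK.A
import Pool.Agent.W767.Kc.Asm1

set_option autoImplicit false

/-!
# One block: pieces and the induction step
-/

open MeasureTheory Set Filter Topology ENNReal NNReal

namespace Pool.Agent.TH225.CK

set_option linter.unusedSectionVars false

variable {ι : Type} [Fintype ι]

/-- The coordinates in the block. -/
def rp (p : ι → Prop) (v : ι → ℝ) : {i // p i} → ℝ := fun i => v i

/-- The coordinates outside the block. -/
def rn (p : ι → Prop) (v : ι → ℝ) : {i // ¬ p i} → ℝ := fun i => v i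

theorem gl_rp_rn (p : ι → Prop) [DecidablePred p] (v : ι → ℝ) : gl p (rp p v) (rn p v) = v :=
  gl_self p v

theorem rp_gl (p : ι → Prop) [DecidablePred p] (x : {i // p i} → ℝ) (z : {i // ¬ p i} → ℝ) :
    rp p (gl p x z) = x := by
  funext i
  simp [rp, gl, i.2]

theorem rn_gl (p : ι → Prop) [DecidablePred p] (x : {i // p i} → ℝ) (z : {i // ¬ p i} → ℝ) :
    rn p (gl p x z) = z := by
  funext i
  simp [rn, gl, i.2]

theorem measurable_rp (p : ι → Prop) : Measurable (rp p : (ι → ℝ) → _) :=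
  measurable_pi_lambda _ fun i => measurable_pi_apply _

theorem measurable_rn (p : ι → Prop) : Measurable (rn p : (ι → ℝ) → _) :=
  measurable_pi_lambda _ fun i => measurable_pi_apply _

/-- The indicator function with values in `[0, ∞]`. -/
noncomputable def ind {α : Type*} (R : Set α) : α → ℝ≥0∞ := R.indicator fun _ => 1

theorem measurable_ind {α : Type*} [MeasurableSpace α] {R : Set α} (hR : MeasurableSet R) :
    Measurable (ind R) := measurable_const.indicator hR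

theorem ind_le_one {α : Type*} (R : Set α) (x : α) : ind R x ≤ 1 := by
  unfold ind
  by_cases h : x ∈ R
  · rw [indicator_of_mem h]
  · rw [indicator_of_notMem h]; exact zero_le

theorem point_split (p : ι → Prop) [DecidablePred p] (a v : ι → ℝ) (t : ℝ)
    (x : {i // p i} → ℝ) (z : {i // ¬ p i} → ℝ) :
    a + t • v + gl p x z = gl p (rp p a + t • rp p v + x) (rn p a + t • rn p v + z) := by
  conv_lhs => rw [← gl_rp_rn p a, ← gl_rp_rn p v]
  rw [gl_smul, gl_add, gl_add]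

/-- One piece. -/
theorem piece_av {ρ : ℝ} (hρ : 0 < ρ) (p : ι → Prop) [DecidablePred p] {F : (ι → ℝ) → ℝ≥0∞}
    (hF : Measurable F) {R : Set ({i // p i} → ℝ)} (hR : MeasurableSet R)
    {g : ({i // ¬ p i} → ℝ) → ℝ≥0∞} (hg : Measurable g) {d k : ℕ} (hd : 1 ≤ d) (hk : 1 ≤ k)
    {θ : ℝ} (hθ : (d : ℝ) / ((d + k : ℕ) : ℝ) ≤ θ)
    (hfib : ∀ (c : {i // p i} → ℝ) (z : {i // ¬ p i} → ℝ),
      ∫⁻ x, ind R (c + x) * F (gl p (c + x) z) ∂(bx _ ρ) ≤
        (∫⁻ x, ind R (c + x) ∂(bx _ ρ)) ^ θ * g z) (v a : ι → ℝ) :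
    Av ρ (fun y => ind R (rp p y) * F y) v a ^ (d + k) ≤
      Av ρ (ind R) (rp p v) (rp p a) ^ d *
        Av ρ (fun z => g z ^ (((d + k : ℕ) : ℝ) / k)) (rn p v) (rn p a) ^ k := by
  have := un_prob hρ
  have h1p := un_prob (one_pos)
  have := bx_prob {i // p i} hρ
  have := bx_prob {i // ¬ p i} hρ
  set φ : ℝ → ℝ≥0∞ := fun t => ∫⁻ x, ind R (rp p a + t • rp p v + x) ∂(bx _ ρ) with hφ
  set ψ : ℝ → ℝ≥0∞ := fun t => ∫⁻ z, g (rn p a + t • rn p v + z) ∂(bx _ ρ) with hψ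
  have hφm : Measurable φ :=
    (measurable_in hρ (measurable_ind hR) (rp p a)).comp (measurable_prodMk_left (x := rp p v))
  have hψm : Measurable ψ :=
    (measurable_in hρ hg (rn p a)).comp (measurable_prodMk_left (x := rn p v))
  have hφ1 : ∀ t, φ t ≤ 1 := by
    intro t
    calc φ t ≤ ∫⁻ _, 1 ∂(bx {i // p i} ρ) := lintegral_mono fun x => ind_le_one _ _
      _ = 1 := by simp
  have hH : Measurable (fun y : ι → ℝ => ind R (rp p y) * F y) :=
    ((measurable_ind hR).comp (measurable_rp p)).mul hF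
  have h1 : Av ρ (fun y => ind R (rp p y) * F y) v a ≤ ∫⁻ t, φ t ^ θ * ψ t ∂(un 1) := by
    apply lintegral_mono
    intro t
    have hHt : Measurable (fun w : ι → ℝ => (fun y => ind R (rp p y) * F y) (a + t • v + w)) :=
      hH.comp (by fun_prop)
    change ∫⁻ w, (fun y => ind R (rp p y) * F y) (a + t • v + w) ∂(Measure.pi fun _ => un ρ) ≤ _
    rw [lint_split' (un ρ) p hHt]
    have e1 : ∀ z : {i // ¬ p i} → ℝ, ∫⁻ x, (fun y => ind R (rp p y) * F y)
        (a + t • v + gl p x z) ∂(Measure.pi fun _ : {i // p i} => un ρ) ≤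
          φ t ^ θ * g (rn p a + t • rn p v + z) := by
      intro z
      have e2 : ∀ x : {i // p i} → ℝ, (fun y => ind R (rp p y) * F y) (a + t • v + gl p x z) =
          ind R ((rp p a + t • rp p v) + x) *
            F (gl p ((rp p a + t • rp p v) + x) (rn p a + t • rn p v + z)) := by
        intro x
        simp only [point_split, rp_gl]
      simp only [e2]
      exact hfib _ _
    refine (lintegral_mono e1).trans ?_
    rw [lintegral_const_mul]
    · exact le_rfl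
    · exact hg.comp (by fun_prop)
  calc Av ρ (fun y => ind R (rp p y) * F y) v a ^ (d + k)
      ≤ (∫⁻ t, φ t ^ θ * ψ t ∂(un 1)) ^ (d + k) := by gcongr
    _ ≤ (∫⁻ t, φ t ∂(un 1)) ^ d * (∫⁻ t, ψ t ^ (((d + k : ℕ) : ℝ) / k) ∂(un 1)) ^ k :=
        holder _ hφm.aemeasurable hψm.aemeasurable hφ1 hd hk hθ
    _ ≤ _ := by
        refine mul_le_mul' le_rfl ?_
        gcongr
        apply lintegral_mono
        intro t
        have hk0 : (0 : ℝ) < k := by exact_mod_cast hk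
        refine jensen _ (hg.comp (by fun_prop)).aemeasurable ?_
        rw [le_div_iff₀ hk0]
        push_cast
        have : (0 : ℝ) ≤ d := by positivity
        linarith

theorem piece_NN {ρ : ℝ} (hρ : 0 < ρ) (p : ι → Prop) [DecidablePred p] {F : (ι → ℝ) → ℝ≥0∞}
    (hF : Measurable F) {R : Set ({i // p i} → ℝ)} (hR : MeasurableSet R)
    {g : ({i // ¬ p i} → ℝ) → ℝ≥0∞} (hg : Measurable g) {d k : ℕ} (hd : 1 ≤ d) (hk : 1 ≤ k)
    {θ : ℝ} (hθ : (d : ℝ) / ((d + k : ℕ) : ℝ) ≤ θ)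
    (hfib : ∀ (c : {i // p i} → ℝ) (z : {i // ¬ p i} → ℝ),
      ∫⁻ x, ind R (c + x) * F (gl p (c + x) z) ∂(bx _ ρ) ≤
        (∫⁻ x, ind R (c + x) ∂(bx _ ρ)) ^ θ * g z) (v : ι → ℝ) :
    NN ρ (fun y => ind R (rp p y) * F y) v ^ (d + k) ≤
      NN ρ (ind R) (rp p v) ^ d *
        NN ρ (fun z => g z ^ (((d + k : ℕ) : ℝ) / k)) (rn p v) ^ k := by
  unfold NN
  rw [ENNReal.iSup_pow]
  apply iSup_le
  intro q
  refine (piece_av hρ p hF hR hg hd hk hθ hfib v _).trans ?_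
  gcongr
  · exact le_iSup (fun q : {i // p i} → ℚ => Av ρ (ind R) (rp p v) (fun i => (q i : ℝ)))
      (fun i => q i)
  · exact le_iSup (fun q' : {i // ¬ p i} → ℚ => Av ρ
      (fun z => g z ^ (((d + k : ℕ) : ℝ) / k)) (rn p v) (fun i => (q' i : ℝ))) (fun i => q i)

/-- Lebesgue measure on the cube `[-1, 1]^ι`. -/
noncomputable def cu (ι : Type) [Fintype ι] : Measure (ι → ℝ) :=
  Measure.pi fun _ => volume.restrict (Icc (-1 : ℝ) 1)

theorem cu_eq (ι : Type) [Fintype ι] :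
    cu ι = volume.restrict (Set.univ.pi fun _ : ι => Icc (-1 : ℝ) 1) := by
  unfold cu
  rw [volume_pi, Measure.restrict_pi_pi]

theorem cu_univ (ι : Type) [Fintype ι] : cu ι Set.univ = 2 ^ Fintype.card ι := by
  unfold cu
  rw [← Set.pi_univ Set.univ, Measure.pi_pi]
  simp only [Measure.restrict_apply_univ, Real.volume_Icc]
  rw [Finset.prod_const, Finset.card_univ]
  norm_num

theorem piece_int {ρ : ℝ} (hρ : 0 < ρ) (p : ι → Prop) [DecidablePred p] {F : (ι → ℝ) → ℝ≥0∞}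
    (hF : Measurable F) {R : Set ({i // p i} → ℝ)} (hR : MeasurableSet R)
    {g : ({i // ¬ p i} → ℝ) → ℝ≥0∞} (hg : Measurable g) {d k : ℕ} (hd : 1 ≤ d) (hk : 1 ≤ k)
    {θ : ℝ} (hθ : (d : ℝ) / ((d + k : ℕ) : ℝ) ≤ θ)
    (hfib : ∀ (c : {i // p i} → ℝ) (z : {i // ¬ p i} → ℝ),
      ∫⁻ x, ind R (c + x) * F (gl p (c + x) z) ∂(bx _ ρ) ≤
        (∫⁻ x, ind R (c + x) ∂(bx _ ρ)) ^ θ * g z) :
    ∫⁻ v, NN ρ (fun y => ind R (rp p y) * F y) v ^ (d + k) ∂(cu ι) ≤
      (∫⁻ x, NN ρ (ind R) x ^ d ∂(cu _)) *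
        ∫⁻ z, NN ρ (fun z => g z ^ (((d + k : ℕ) : ℝ) / k)) z ^ k ∂(cu _) := by
  have hgm : Measurable (fun z => g z ^ (((d + k : ℕ) : ℝ) / k)) := hg.pow_const _
  have h1 : Measurable (NN ρ (ind R)) := measurable_NN hρ (measurable_ind hR)
  have h2 : Measurable (NN ρ (fun z => g z ^ (((d + k : ℕ) : ℝ) / k))) := measurable_NN hρ hgm
  refine (lintegral_mono fun v => piece_NN hρ p hF hR hg hd hk hθ hfib v).trans ?_
  have hm : Measurable (fun v : ι → ℝ => NN ρ (ind R) (rp p v) ^ d *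
      NN ρ (fun z => g z ^ (((d + k : ℕ) : ℝ) / k)) (rn p v) ^ k) :=
    ((h1.comp (measurable_rp p)).pow_const _).mul ((h2.comp (measurable_rn p)).pow_const _)
  unfold cu
  rw [lint_split (volume.restrict (Icc (-1 : ℝ) 1)) p hm]
  simp only [rp_gl, rn_gl]
  have e1 : ∀ x : {i // p i} → ℝ, ∫⁻ z, NN ρ (ind R) x ^ d *
      NN ρ (fun z => g z ^ (((d + k : ℕ) : ℝ) / k)) z ^ k
        ∂(Measure.pi fun _ : {i // ¬ p i} => volume.restrict (Icc (-1 : ℝ) 1)) =
      NN ρ (ind R) x ^ d * ∫⁻ z, NN ρ (fun z => g z ^ (((d + k : ℕ) : ℝ) / k)) z ^ k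
        ∂(Measure.pi fun _ : {i // ¬ p i} => volume.restrict (Icc (-1 : ℝ) 1)) := fun x =>
    lintegral_const_mul _ (h2.pow_const _)
  simp only [e1]
  rw [lintegral_mul_const _ (h1.pow_const _)]

end Pool.Agent.TH225.CK
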