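import Pool.Agent.TH225.CK.B

set_option autoImplicit false

/-!
# The induction step
-/

open MeasureTheory Set Filter Topology ENNReal NNReal Function

namespace Pool.Agent.TH225.CK

set_option linter.unusedSectionVars false

/-! ### Measures of sublevel sets -/

/-- The measure of the sublevel set through `x`. -/
noncomputable def VV {α : Type*} [MeasureSpace α] (u : α → ℝ) (x : α) : ℝ≥0∞ :=
  volume {x' | u x' ≤ u x}

theorem measurable_VV {α : Type*} [MeasureSpace α] {u : α → ℝ} (hu : Measurable u) :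
    Measurable (VV u) := by
  have h : Monotone (fun c : ℝ => (volume : Measure α) {x' | u x' ≤ c}) := by
    intro c c' hc
    exact measure_mono fun x hx => le_trans hx hc
  exact h.measurable.comp hu

theorem volume_VV_lt {α : Type*} [MeasureSpace α] {u : α → ℝ} (s : ℝ≥0∞) :
    volume {x | VV u x < s} ≤ s := by
  set m : ℝ → ℝ≥0∞ := fun c => (volume : Measure α) {x' | u x' ≤ c} with hm
  have hmono : Monotone m := by
    intro c c' hc
    exact measure_mono fun x hx => le_trans hx hc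
  by_cases hmax : ∃ a, m a < s ∧ ∀ c, m c < s → c ≤ a
  · obtain ⟨a, ha, hc⟩ := hmax
    calc volume {x | VV u x < s} ≤ m a := measure_mono fun x hx => hc _ hx
      _ ≤ s := ha.le
  · push Not at hmax
    set t : Set ℚ := {q : ℚ | m q < s} with ht
    have hsub : {x | VV u x < s} ⊆ ⋃ q ∈ t, {x | u x ≤ (q : ℝ)} := by
      intro x hx
      obtain ⟨c, hc1, hc2⟩ := hmax (u x) hx
      obtain ⟨q, hq1, hq2⟩ := exists_rat_btwn hc2
      rw [mem_iUnion₂]
      exact ⟨q, (hmono hq2.le).trans_lt hc1, hq1.le⟩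
    have hdir : DirectedOn ((· ⊆ ·) on fun q : ℚ => {x | u x ≤ (q : ℝ)}) t := by
      intro q hq q' hq'
      rcases le_total q q' with h | h
      · refine ⟨q', hq', ?_, Subset.rfl⟩
        intro x (hx : u x ≤ q)
        exact hx.trans (by exact_mod_cast h)
      · refine ⟨q, hq, Subset.rfl, ?_⟩
        intro x (hx : u x ≤ q')
        exact hx.trans (by exact_mod_cast h)
    calc volume {x | VV u x < s} ≤ volume (⋃ q ∈ t, {x | u x ≤ (q : ℝ)}) := measure_mono hsub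
      _ = ⨆ q ∈ t, volume {x | u x ≤ (q : ℝ)} :=
          measure_biUnion_eq_iSup (Set.to_countable t) hdir
      _ ≤ s := iSup₂_le fun q hq => le_of_lt hq

variable {ι : Type} [Fintype ι]

/-! ### Subadditivity -/

theorem Av_sum {ρ : ℝ} (hρ : 0 < ρ) {κ : Type*} (s : Finset κ) {f : κ → (ι → ℝ) → ℝ≥0∞}
    (hf : ∀ j ∈ s, Measurable (f j)) (v a : ι → ℝ) :
    Av ρ (fun y => ∑ j ∈ s, f j y) v a = ∑ j ∈ s, Av ρ (f j) v a := by
  unfold Av
  have h1 : ∀ t : ℝ, ∫⁻ w, ∑ j ∈ s, f j (a + t • v + w) ∂(bx ι ρ) =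
      ∑ j ∈ s, ∫⁻ w, f j (a + t • v + w) ∂(bx ι ρ) := by
    intro t
    apply lintegral_finsetSum
    intro j hj
    exact (hf j hj).comp (by fun_prop)
  simp only [h1]
  apply lintegral_finsetSum
  intro j hj
  exact (measurable_in hρ (hf j hj) a).comp (measurable_prodMk_left (x := v))

theorem NN_sum {ρ : ℝ} (hρ : 0 < ρ) {κ : Type*} (s : Finset κ) {f : κ → (ι → ℝ) → ℝ≥0∞}
    (hf : ∀ j ∈ s, Measurable (f j)) (v : ι → ℝ) :
    NN ρ (fun y => ∑ j ∈ s, f j y) v ≤ ∑ j ∈ s, NN ρ (f j) v := by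
  apply iSup_le
  intro q
  rw [Av_sum hρ s hf]
  exact Finset.sum_le_sum fun j _ => Av_le_NN v q

theorem NN_ind_le_one {ρ : ℝ} (hρ : 0 < ρ) (R : Set (ι → ℝ)) (v : ι → ℝ) :
    NN ρ (ind R) v ≤ 1 := by
  have := un_prob (one_pos)
  have := bx_prob ι hρ
  apply iSup_le
  intro q
  calc Av ρ (ind R) v (fun i => (q i : ℝ))
      ≤ ∫⁻ _ : ℝ, ∫⁻ _ : ι → ℝ, 1 ∂(bx ι ρ) ∂(un 1) :=
        lintegral_mono fun _ => lintegral_mono fun _ => ind_le_one _ _
    _ = 1 := by simp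

/-! ### The averages over the block -/

/-- The `L^n` average over the block, normalised with `s`. -/
noncomputable def GG (p : ι → Prop) [DecidablePred p] (F : (ι → ℝ) → ℝ≥0∞) (n : ℕ) (s : ℝ≥0∞)
    (z : {i // ¬ p i} → ℝ) : ℝ≥0∞ :=
  (s⁻¹ * ∫⁻ x, F (gl p x z) ^ n) ^ ((1 : ℝ) / n)

theorem measurable_fib (p : ι → Prop) [DecidablePred p] {F : (ι → ℝ) → ℝ≥0∞} (hF : Measurable F)
    (n : ℕ) : Measurable (fun z => ∫⁻ x, F (gl p x z) ^ n) := by
  have h : Measurable (fun q : ({i // p i} → ℝ) × ({i // ¬ p i} → ℝ) => F (gl p q.1 q.2) ^ n) :=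
    (hF.comp (measurable_gl p)).pow_const _
  exact Measurable.lintegral_prod_left' h

theorem measurable_GG (p : ι → Prop) [DecidablePred p] {F : (ι → ℝ) → ℝ≥0∞} (hF : Measurable F)
    (n : ℕ) (s : ℝ≥0∞) : Measurable (GG p F n s) :=
  ((measurable_fib p hF n).const_mul _).pow_const _

theorem GG_pow (p : ι → Prop) [DecidablePred p] (F : (ι → ℝ) → ℝ≥0∞) {d k : ℕ}
    (hk : 1 ≤ k) (s : ℝ≥0∞) (z : {i // ¬ p i} → ℝ) :
    (GG p F (d + k) s z ^ (((d + k : ℕ) : ℝ) / k)) ^ k = s⁻¹ * ∫⁻ x, F (gl p x z) ^ (d + k) := by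
  unfold GG
  rw [← ENNReal.rpow_natCast, ← ENNReal.rpow_mul, ← ENNReal.rpow_mul]
  have hk0 : (k : ℝ) ≠ 0 := by
    have : (0 : ℝ) < k := by exact_mod_cast hk
    exact this.ne'
  have hn0 : (((d + k : ℕ) : ℝ)) ≠ 0 := by
    have : (0 : ℝ) < ((d + k : ℕ) : ℝ) := by exact_mod_cast (by omega)
    exact this.ne'
  have e : (1 : ℝ) / ((d + k : ℕ) : ℝ) * (((d + k : ℕ) : ℝ) / k * k) = 1 := by
    rw [div_mul_cancel₀ _ hk0, one_div_mul_cancel hn0]
  rw [e, ENNReal.rpow_one]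

theorem lintegral_GG (p : ι → Prop) [DecidablePred p] {F : (ι → ℝ) → ℝ≥0∞} (hF : Measurable F)
    {d k : ℕ} (hk : 1 ≤ k) (s : ℝ≥0∞) :
    ∫⁻ z, (GG p F (d + k) s z ^ (((d + k : ℕ) : ℝ) / k)) ^ k = s⁻¹ * ∫⁻ y, F y ^ (d + k) := by
  simp only [GG_pow p F hk]
  rw [lintegral_const_mul _ (measurable_fib p hF _)]
  congr 1
  have h := lint_split' (volume : Measure ℝ) p (hF.pow_const (d + k))
  rw [← volume_pi, ← volume_pi, ← volume_pi] at h
  exact h.symm

theorem le_GG (p : ι → Prop) [DecidablePred p] {F : (ι → ℝ) → ℝ≥0∞}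
    {u : ({i // p i} → ℝ) → ℝ} (hu : Measurable u)
    (hmono : ∀ x x' z, u x' ≤ u x → F (gl p x z) ≤ F (gl p x' z))
    {n : ℕ} (hn : 1 ≤ n) {s : ℝ≥0∞} (hs0 : s ≠ 0) (hst : s ≠ ∞) {x : {i // p i} → ℝ}
    (hx : s ≤ VV u x) (z : {i // ¬ p i} → ℝ) : F (gl p x z) ≤ GG p F n s z := by
  have hn0 : (0 : ℝ) < n := by exact_mod_cast hn
  have h1 : F (gl p x z) ^ n * s ≤ ∫⁻ x, F (gl p x z) ^ n := by
    calc F (gl p x z) ^ n * s ≤ F (gl p x z) ^ n * VV u x := by gcongr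
      _ = ∫⁻ _ in {x' | u x' ≤ u x}, F (gl p x z) ^ n := by
          rw [lintegral_const, Measure.restrict_apply_univ]; rfl
      _ ≤ ∫⁻ x' in {x' | u x' ≤ u x}, F (gl p x' z) ^ n := by
          apply setLIntegral_mono' (measurableSet_le hu measurable_const)
          intro x' hx'
          gcongr
          exact hmono x x' z hx'
      _ ≤ _ := lintegral_mono' Measure.restrict_le_self le_rfl
  have h2 : F (gl p x z) ^ n ≤ s⁻¹ * ∫⁻ x, F (gl p x z) ^ n := by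
    calc F (gl p x z) ^ n = s⁻¹ * (F (gl p x z) ^ n * s) := by
          rw [mul_comm (F _ ^ n), ← mul_assoc, ENNReal.inv_mul_cancel hs0 hst, one_mul]
      _ ≤ _ := by gcongr
  calc F (gl p x z) = (F (gl p x z) ^ n) ^ ((1 : ℝ) / n) := by
        rw [← ENNReal.rpow_natCast, ← ENNReal.rpow_mul, mul_one_div_cancel hn0.ne',
          ENNReal.rpow_one]
    _ ≤ _ := ENNReal.rpow_le_rpow h2 (by positivity)

end Pool.Agent.TH225.CK
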