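import Pool.Agent.TH225.CK.C

set_option autoImplicit false

/-!
# The induction step, assembled
-/

open MeasureTheory Set Filter Topology ENNReal NNReal Function

namespace Pool.Agent.TH225.CK

set_option linter.unusedSectionVars false

variable {ι : Type} [Fintype ι]

/-- The pieces of the block. -/
def PP {α : Type*} [MeasureSpace α] (u : α → ℝ) (c : ℝ≥0∞) (I i : ℕ) : Set α :=
  {x | (i ≠ 0 → 2 ^ (i - 1) * c ≤ VV u x) ∧ (i ≤ I → VV u x < 2 ^ i * c)}

theorem measurableSet_PP {α : Type*} [MeasureSpace α] {u : α → ℝ} (hu : Measurable u)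
    (c : ℝ≥0∞) (I i : ℕ) : MeasurableSet (PP u c I i) := by
  have h := measurable_VV hu
  have h1 : MeasurableSet {x | i ≠ 0 → 2 ^ (i - 1) * c ≤ VV u x} := by
    by_cases hi : i ≠ 0
    · simp only [hi, not_false_eq_true, ne_eq, true_imp_iff]
      exact measurableSet_le measurable_const h
    · simp [hi]
  have h2 : MeasurableSet {x | i ≤ I → VV u x < 2 ^ i * c} := by
    by_cases hi : i ≤ I
    · simp only [hi, true_imp_iff]
      exact measurableSet_lt h measurable_const
    · simp [hi]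
  exact h1.inter h2

theorem PP_cover {α : Type*} [MeasureSpace α] (u : α → ℝ) (c : ℝ≥0∞) (I : ℕ) (x : α) :
    ∃ i ∈ Finset.range (I + 2), x ∈ PP u c I i := by
  classical
  have hex : ∃ i, I < i ∨ VV u x < 2 ^ i * c := ⟨I + 1, Or.inl (by omega)⟩
  refine ⟨Nat.find hex, ?_, ?_, ?_⟩
  · rw [Finset.mem_range]
    have : Nat.find hex ≤ I + 1 := Nat.find_min' hex (Or.inl (by omega))
    omega
  · intro h0
    by_contra hc
    have hlt : Nat.find hex - 1 < Nat.find hex := by omega
    exact Nat.find_min hex hlt (Or.inr (not_le.1 hc))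
  · intro hle
    rcases Nat.find_spec hex with h | h
    · omega
    · exact h

theorem fib_outer (p : ι → Prop) [DecidablePred p] {F : (ι → ℝ) → ℝ≥0∞} {ρ : ℝ}
    {R : Set ({i // p i} → ℝ)} (hR : MeasurableSet R) {g : ({i // ¬ p i} → ℝ) → ℝ≥0∞}
    (h : ∀ x ∈ R, ∀ z, F (gl p x z) ≤ g z) (c : {i // p i} → ℝ) (z : {i // ¬ p i} → ℝ) :
    ∫⁻ x, ind R (c + x) * F (gl p (c + x) z) ∂(bx _ ρ) ≤
        (∫⁻ x, ind R (c + x) ∂(bx _ ρ)) ^ (1 : ℝ) * g z := by
  rw [ENNReal.rpow_one, ← lintegral_mul_const]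
  · apply lintegral_mono
    intro x
    by_cases hx : c + x ∈ R
    · exact mul_le_mul' le_rfl (h _ hx z)
    · simp [ind, hx]
  · exact (measurable_ind hR).comp (by fun_prop)

theorem fib_core (p : ι → Prop) [DecidablePred p] {F : (ι → ℝ) → ℝ≥0∞} (hF : Measurable F)
    {ρ : ℝ} (hρ : 0 < ρ) {R : Set ({i // p i} → ℝ)} (hR : MeasurableSet R) {n : ℕ} (hn : 2 ≤ n)
    (c : {i // p i} → ℝ) (z : {i // ¬ p i} → ℝ) :
    ∫⁻ x, ind R (c + x) * F (gl p (c + x) z) ∂(bx _ ρ) ≤
        (∫⁻ x, ind R (c + x) ∂(bx _ ρ)) ^ (((n : ℝ) - 1) / n) *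
          GG p F n ((ENNReal.ofReal (2 * ρ)) ^ Fintype.card {i // p i}) z := by
  have hn0 : (0 : ℝ) < n := by exact_mod_cast (by omega : 0 < n)
  have hn1 : (1 : ℝ) < n := by exact_mod_cast (by omega : 1 < n)
  have hm1 : Measurable (fun x : {i // p i} → ℝ => ind R (c + x)) :=
    (measurable_ind hR).comp (by fun_prop)
  have hm0 : Measurable (fun x : {i // p i} → ℝ => F (gl p x z)) :=
    hF.comp ((measurable_gl p).comp (measurable_prodMk_right (y := z)))
  have hm2 : Measurable (fun x : {i // p i} → ℝ => F (gl p (c + x) z) ^ n) :=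
    (hm0.comp (measurable_const_add c)).pow_const n
  have h1 := ENNReal.lintegral_mul_norm_pow_le (μ := bx {i // p i} ρ)
    (f := fun x => ind R (c + x)) (g := fun x => F (gl p (c + x) z) ^ n) hm1.aemeasurable
    hm2.aemeasurable (p := ((n : ℝ) - 1) / n) (q := 1 / n)
    (div_nonneg (by linarith) hn0.le) (by positivity) (by field_simp; ring)
  have e1 : ∀ x : {i // p i} → ℝ, ind R (c + x) * F (gl p (c + x) z) =
      ind R (c + x) ^ (((n : ℝ) - 1) / n) * (F (gl p (c + x) z) ^ n) ^ ((1 : ℝ) / n) := by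
    intro x
    have e2 : (F (gl p (c + x) z) ^ n) ^ ((1 : ℝ) / n) = F (gl p (c + x) z) := by
      rw [← ENNReal.rpow_natCast, ← ENNReal.rpow_mul, mul_one_div_cancel hn0.ne',
        ENNReal.rpow_one]
    rw [e2]
    by_cases hx : c + x ∈ R
    · simp [ind, hx]
    · have h0 : (0 : ℝ) < ((n : ℝ) - 1) / n := div_pos (by linarith) hn0
      simp [ind, hx, ENNReal.zero_rpow_of_pos h0]
  simp only [e1]
  refine h1.trans ?_
  refine mul_le_mul' le_rfl ?_
  unfold GG
  refine ENNReal.rpow_le_rpow ?_ (by positivity)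
  refine (bx_le _ hρ _).trans (le_of_eq ?_)
  rw [ENNReal.inv_pow]
  congr 1
  exact lintegral_add_left_eq_self (μ := (volume : Measure ({i // p i} → ℝ)))
    (fun x => F (gl p x z) ^ n) c

theorem step {ρ : ℝ} (hρ : 0 < ρ) (p : ι → Prop) [DecidablePred p] {F : (ι → ℝ) → ℝ≥0∞}
    (hF : Measurable F) {u : ({i // p i} → ℝ) → ℝ} (hu : Measurable u)
    (hmono : ∀ x x' z, u x' ≤ u x → F (gl p x z) ≤ F (gl p x' z))
    {d k : ℕ} (hd : 1 ≤ d) (hk : 1 ≤ k) (hcd : Fintype.card {i // p i} = d) {AX AZ : ℝ≥0∞}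
    (hX : ∀ R : Set ({i // p i} → ℝ), MeasurableSet R →
      ∫⁻ x, NN ρ (ind R) x ^ d ∂(cu _) ≤ AX * volume R)
    (hZ : ∀ s : ℝ≥0∞, s ≠ 0 → s ≠ ∞ →
      ∫⁻ z, NN ρ (fun z => GG p F (d + k) s z ^ (((d + k : ℕ) : ℝ) / k)) z ^ k ∂(cu _) ≤
        AZ * ∫⁻ z, (GG p F (d + k) s z ^ (((d + k : ℕ) : ℝ) / k)) ^ k)
    {I : ℕ} (hI : 1 ≤ 2 ^ I * (ENNReal.ofReal (2 * ρ)) ^ d) :
    ∫⁻ v, NN ρ F v ^ (d + k) ∂(cu ι) ≤
      ((I + 2 : ℕ) : ℝ≥0∞) ^ (d + k) * ((2 * AX + 2 ^ d) * AZ) * ∫⁻ y, F y ^ (d + k) := by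
  set c : ℝ≥0∞ := (ENNReal.ofReal (2 * ρ)) ^ d with hc
  have hc0 : c ≠ 0 := pow_ne_zero _ (by simpa using hρ)
  have hct : c ≠ ∞ := ENNReal.pow_ne_top ENNReal.ofReal_ne_top
  set J : ℝ≥0∞ := ∫⁻ y, F y ^ (d + k) with hJ
  have h20 : ∀ j : ℕ, (2 : ℝ≥0∞) ^ j * c ≠ 0 := fun j => mul_ne_zero (by simp) hc0
  have h2t : ∀ j : ℕ, (2 : ℝ≥0∞) ^ j * c ≠ ∞ := fun j =>
    ENNReal.mul_ne_top (ENNReal.pow_ne_top (by norm_num)) hct
  set f : ℕ → (ι → ℝ) → ℝ≥0∞ := fun i y => ind (PP u c I i) (rp p y) * F y with hf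
  have hfm : ∀ i, Measurable (f i) := fun i =>
    ((measurable_ind (measurableSet_PP hu c I i)).comp (measurable_rp p)).mul hF
  have hle : ∀ y, F y ≤ ∑ i ∈ Finset.range (I + 2), f i y := by
    intro y
    obtain ⟨i, hi, hyi⟩ := PP_cover u c I (rp p y)
    calc F y = f i y := by simp [hf, ind, hyi]
      _ ≤ _ := Finset.single_le_sum (f := fun i => f i y) (fun _ _ => zero_le) hi
  -- the bound for one piece
  have hpc : ∀ i ∈ Finset.range (I + 2), ∫⁻ v, NN ρ (f i) v ^ (d + k) ∂(cu ι) ≤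
      (2 * AX + 2 ^ d) * AZ * J := by
    intro i hi
    rw [Finset.mem_range] at hi
    have hPm := measurableSet_PP hu c I i
    rcases Nat.eq_zero_or_pos i with h0 | h0
    · -- the core
      have h1 := piece_int hρ p hF hPm (measurable_GG p hF (d + k) c) hd hk
        (θ := (((d + k : ℕ) : ℝ) - 1) / ((d + k : ℕ) : ℝ)) (by
          have hk1 : (1 : ℝ) ≤ k := by exact_mod_cast hk
          have hd1 : (1 : ℝ) ≤ d := by exact_mod_cast hd
          apply div_le_div_of_nonneg_right _ (by positivity)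
          push_cast
          linarith) (fun c' z => by
            have := fib_core p hF hρ hPm (n := d + k) (by omega) c' z
            rw [hcd] at this
            exact this)
      refine h1.trans ?_
      have h2 := hX _ hPm
      have h3 := hZ c hc0 hct
      rw [lintegral_GG p hF hk] at h3
      have hv : volume (PP u c I i) ≤ c := by
        calc volume (PP u c I i) ≤ volume {x | VV u x < c} := by
              apply measure_mono
              intro x hx
              have := hx.2 (by omega)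
              rw [h0] at this
              simpa using this
          _ ≤ c := volume_VV_lt c
      calc _ ≤ (AX * c) * (AZ * (c⁻¹ * J)) := by
            refine mul_le_mul' (h2.trans ?_) h3
            gcongr
        _ = AX * AZ * J * (c * c⁻¹) := by ring
        _ = AX * AZ * J := by rw [ENNReal.mul_inv_cancel hc0 hct, mul_one]
        _ ≤ _ := by
            gcongr
            calc AX ≤ 2 * AX := by
                  rw [two_mul]; exact le_self_add
              _ ≤ _ := le_self_add
    · -- the outer pieces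
      set s : ℝ≥0∞ := 2 ^ (i - 1) * c with hs
      have hs0 : s ≠ 0 := h20 _
      have hst : s ≠ ∞ := h2t _
      have h1 := piece_int hρ p hF hPm (measurable_GG p hF (d + k) s) hd hk
        (θ := 1) (by
          rw [div_le_one (by exact_mod_cast (by omega : 0 < d + k))]
          push_cast
          have : (0 : ℝ) ≤ k := by positivity
          linarith)
        (fib_outer p hPm (fun x hx z => le_GG p hu hmono (by omega) hs0 hst
          (hx.1 (by omega)) z))
      refine h1.trans ?_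
      have h3 := hZ s hs0 hst
      rw [lintegral_GG p hF hk] at h3
      rcases Nat.lt_or_ge I i with hi2 | hi2
      · -- the last piece
        have hi3 : i = I + 1 := by omega
        have h2 : ∫⁻ x, NN ρ (ind (PP u c I i)) x ^ d ∂(cu {i // p i}) ≤ 2 ^ d := by
          calc ∫⁻ x, NN ρ (ind (PP u c I i)) x ^ d ∂(cu {i // p i})
              ≤ ∫⁻ _, 1 ∂(cu {i // p i}) := by
                apply lintegral_mono
                intro x
                exact pow_le_one₀ zero_le (NN_ind_le_one hρ _ _)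
            _ = 2 ^ d := by rw [lintegral_one, cu_univ, hcd]
        have hs1 : s⁻¹ ≤ 1 := by
          rw [ENNReal.inv_le_one, hs, hi3]
          simpa using hI
        calc _ ≤ 2 ^ d * (AZ * (1 * J)) := by
              refine mul_le_mul' h2 (h3.trans ?_)
              gcongr
          _ = 2 ^ d * AZ * J := by ring
          _ ≤ _ := by
              gcongr
              exact le_add_self
      · have h2 := hX _ hPm
        have hv : volume (PP u c I i) ≤ 2 * s := by
          calc volume (PP u c I i) ≤ volume {x | VV u x < 2 ^ i * c} :=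
                measure_mono fun x hx => hx.2 hi2
            _ ≤ 2 ^ i * c := volume_VV_lt _
            _ = 2 * s := by
                rw [hs, ← mul_assoc, ← pow_succ']
                congr 2
                omega
        calc _ ≤ (AX * (2 * s)) * (AZ * (s⁻¹ * J)) := by
              refine mul_le_mul' (h2.trans ?_) h3
              gcongr
          _ = 2 * AX * AZ * J * (s * s⁻¹) := by ring
          _ = 2 * AX * AZ * J := by rw [ENNReal.mul_inv_cancel hs0 hst, mul_one]
          _ ≤ _ := by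
              gcongr
              exact le_self_add
  -- summation
  have hpt : ∀ v, NN ρ F v ^ (d + k) ≤ ((I + 2 : ℕ) : ℝ≥0∞) ^ (d + k - 1) *
      ∑ i ∈ Finset.range (I + 2), NN ρ (f i) v ^ (d + k) := by
    intro v
    calc NN ρ F v ^ (d + k) ≤ (∑ i ∈ Finset.range (I + 2), NN ρ (f i) v) ^ (d + k) := by
          gcongr
          exact (NN_mono hle v).trans (NN_sum hρ _ (fun j _ => hfm j) v)
      _ ≤ ((Finset.range (I + 2)).card : ℝ≥0∞) ^ (d + k - 1) *
          ∑ i ∈ Finset.range (I + 2), NN ρ (f i) v ^ (d + k) :=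
          Pool.Agent.W767.Kc.sum_pow_le _ _ (by omega)
      _ = _ := by rw [Finset.card_range]
  calc ∫⁻ v, NN ρ F v ^ (d + k) ∂(cu ι)
      ≤ ∫⁻ v, ((I + 2 : ℕ) : ℝ≥0∞) ^ (d + k - 1) *
          ∑ i ∈ Finset.range (I + 2), NN ρ (f i) v ^ (d + k) ∂(cu ι) := lintegral_mono hpt
    _ = ((I + 2 : ℕ) : ℝ≥0∞) ^ (d + k - 1) *
          ∑ i ∈ Finset.range (I + 2), ∫⁻ v, NN ρ (f i) v ^ (d + k) ∂(cu ι) := by
        rw [lintegral_const_mul, lintegral_finsetSum]
        · intro i _
          exact (measurable_NN hρ (hfm i)).pow_const _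
        · exact Finset.measurable_sum _ fun i _ => (measurable_NN hρ (hfm i)).pow_const _
    _ ≤ ((I + 2 : ℕ) : ℝ≥0∞) ^ (d + k - 1) *
          ∑ i ∈ Finset.range (I + 2), (2 * AX + 2 ^ d) * AZ * J := by
        gcongr with i hi
        exact hpc i hi
    _ = _ := by
        rw [Finset.sum_const, Finset.card_range, nsmul_eq_mul]
        have e : d + k = (d + k - 1) + 1 := by omega
        conv_rhs => rw [e, pow_succ]
        ring

end Pool.Agent.TH225.CK
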