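import Pool.Agent.TH225.CK.D

set_option autoImplicit false

/-!
# A formula for the averages; blocks of one coordinate
-/

open MeasureTheory Set Filter Topology ENNReal NNReal Function

namespace Pool.Agent.TH225.CK

set_option linter.unusedSectionVars false

variable {ι : Type} [Fintype ι]

/-- The cube `[-ρ, ρ]^ι`. -/
def box (ι : Type) (ρ : ℝ) : Set (ι → ℝ) := Set.univ.pi fun _ : ι => Icc (-ρ) ρ

theorem measurableSet_box (ρ : ℝ) : MeasurableSet (box ι ρ) :=
  MeasurableSet.univ_pi fun _ => measurableSet_Icc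

/-- The length of the set of times at which the moving box contains `y`. -/
noncomputable def TT (ρ : ℝ) (v a y : ι → ℝ) : ℝ≥0∞ :=
  ∫⁻ t in Icc (-1 : ℝ) 1, ind (box ι ρ) (y - (a + t • v))

theorem bx_trans {ρ : ℝ} (hρ : 0 < ρ) (F : (ι → ℝ) → ℝ≥0∞) (b : ι → ℝ) :
    ∫⁻ w, F (b + w) ∂(bx ι ρ) = ((ENNReal.ofReal (2 * ρ))⁻¹) ^ Fintype.card ι *
      ∫⁻ y, ind (box ι ρ) (y - b) * F y := by
  rw [bx_eq ι hρ, lintegral_smul_measure, smul_eq_mul]
  congr 1
  have h1 := lintegral_add_left_eq_self (μ := (volume : Measure (ι → ℝ)))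
    (fun y => ind (box ι ρ) (y - b) * F y) b
  change ∫⁻ w in box ι ρ, F (b + w) = _
  rw [← h1, ← lintegral_indicator (measurableSet_box ρ)]
  apply lintegral_congr
  intro w
  have e : b + w - b = w := by abel
  rw [e]
  by_cases hw : w ∈ box ι ρ
  · rw [indicator_of_mem hw]; simp [ind, hw]
  · rw [indicator_of_notMem hw]; simp [ind, hw]

theorem Av_eq {ρ : ℝ} (hρ : 0 < ρ) {F : (ι → ℝ) → ℝ≥0∞} (hF : Measurable F) (v a : ι → ℝ) :
    Av ρ F v a = (ENNReal.ofReal 2)⁻¹ * ((ENNReal.ofReal (2 * ρ))⁻¹) ^ Fintype.card ι *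
      ∫⁻ y, F y * TT ρ v a y := by
  unfold Av
  simp only [bx_trans hρ F]
  have hm : Measurable (fun q : ℝ × (ι → ℝ) => ind (box ι ρ) (q.2 - (a + q.1 • v)) * F q.2) :=
    ((measurable_ind (measurableSet_box ρ)).comp (by fun_prop)).mul (hF.comp measurable_snd)
  rw [lintegral_un]
  have hm1 : Measurable (fun t : ℝ => ∫⁻ y, ind (box ι ρ) (y - (a + t • v)) * F y) :=
    Measurable.lintegral_prod_right' hm
  rw [lintegral_const_mul _ hm1, lintegral_lintegral_swap hm.aemeasurable, mul_one, ← mul_assoc]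
  congr 1
  apply lintegral_congr
  intro y
  unfold TT
  have hm2 : Measurable (fun t : ℝ => ind (box ι ρ) (y - (a + t • v))) :=
    (measurable_ind (measurableSet_box ρ)).comp (by fun_prop)
  rw [lintegral_mul_const _ hm2, mul_comm]

theorem TT_le_two (ρ : ℝ) (v a y : ι → ℝ) : TT ρ v a y ≤ 2 := by
  calc TT ρ v a y ≤ ∫⁻ _ in Icc (-1 : ℝ) 1, 1 := lintegral_mono fun t => ind_le_one _ _
    _ = 2 := by
        rw [lintegral_one, Measure.restrict_apply_univ, Real.volume_Icc]; norm_num

theorem TT_le {ρ : ℝ} (v a y : ι → ℝ) (i : ι) (hi : v i ≠ 0) :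
    TT ρ v a y ≤ ENNReal.ofReal (2 * (ρ / |v i|)) := by
  have hv : 0 < |v i| := abs_pos.2 hi
  calc TT ρ v a y ≤ ∫⁻ t, ind (Metric.closedBall ((y i - a i) / v i) (ρ / |v i|)) t := by
        refine lintegral_mono' Measure.restrict_le_self ?_
        intro t
        change ind (box ι ρ) (y - (a + t • v)) ≤
          ind (Metric.closedBall ((y i - a i) / v i) (ρ / |v i|)) t
        by_cases h : y - (a + t • v) ∈ box ι ρ
        · have h1 := h i (mem_univ i)
          have h2 : t ∈ Metric.closedBall ((y i - a i) / v i) (ρ / |v i|) := by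
            rw [Metric.mem_closedBall, Real.dist_eq, le_div_iff₀ hv, ← abs_mul]
            have e : (t - (y i - a i) / v i) * v i = -(y i - (a i + t * v i)) := by
              field_simp
              ring
            rw [e, abs_neg, abs_le]
            simpa using h1
          have h3 : ind (Metric.closedBall ((y i - a i) / v i) (ρ / |v i|)) t = 1 := by
            simp only [ind]
            rw [indicator_of_mem h2]
          rw [h3]
          exact ind_le_one _ _
        · simp [ind, h]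
    _ = volume (Metric.closedBall ((y i - a i) / v i) (ρ / |v i|)) := by
        unfold ind
        rw [lintegral_indicator Metric.isClosed_closedBall.measurableSet, lintegral_one,
          Measure.restrict_apply_univ]
    _ = _ := Real.volume_closedBall _ _

/-! ### The integral of `1 / (ρ + |x|)` -/

theorem half_int {ρ : ℝ} (hρ : 0 < ρ) :
    ∫⁻ x in Icc (0 : ℝ) 1, ENNReal.ofReal (1 / (ρ + |x|)) =
      ENNReal.ofReal (Real.log ((ρ + 1) / ρ)) := by
  have h1 : ∫ x in (0 : ℝ)..1, 1 / (ρ + x) = Real.log ((ρ + 1) / ρ) := by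
    have := intervalIntegral.integral_comp_add_left (a := 0) (b := 1) (fun x : ℝ => 1 / x) ρ
    rw [this, add_zero, integral_one_div_of_pos hρ (by linarith)]
  have hc : ContinuousOn (fun x : ℝ => 1 / (ρ + x)) (Icc 0 1) := by
    apply ContinuousOn.div continuousOn_const (by fun_prop)
    intro x hx
    have := hx.1
    positivity
  rw [← h1, intervalIntegral.integral_of_le zero_le_one, ← integral_Icc_eq_integral_Ioc,
    ofReal_integral_eq_lintegral_ofReal]
  · apply setLIntegral_congr_fun measurableSet_Icc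
    intro x hx
    simp only
    rw [abs_of_nonneg hx.1]
  · exact (hc.integrableOn_Icc).congr (ae_eq_refl _)
  · filter_upwards [ae_restrict_mem measurableSet_Icc] with x hx
    have := hx.1
    change 0 ≤ 1 / (ρ + x)
    positivity

theorem full_int {ρ : ℝ} (hρ : 0 < ρ) (hρ1 : ρ ≤ 1) :
    ∫⁻ x in Icc (-1 : ℝ) 1, ENNReal.ofReal (1 / (ρ + |x|)) ≤
      ENNReal.ofReal (2 * (1 + Real.log (1 / ρ))) := by
  set h : ℝ → ℝ≥0∞ := fun x => ENNReal.ofReal (1 / (ρ + |x|)) with hh
  have hsub : Icc (-1 : ℝ) 1 ⊆ Icc (-1) 0 ∪ Icc 0 1 := by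
    intro x hx
    rcases le_total x 0 with h0 | h0
    · exact Or.inl ⟨hx.1, h0⟩
    · exact Or.inr ⟨h0, hx.2⟩
  have hneg : ∫⁻ x in Icc (-1 : ℝ) 0, h x = ∫⁻ x in Icc (0 : ℝ) 1, h x := by
    rw [← lintegral_indicator measurableSet_Icc, ← lintegral_indicator measurableSet_Icc,
      ← lintegral_neg_eq_self]
    apply lintegral_congr
    intro x
    have e : (-x ∈ Icc (-1 : ℝ) 0) ↔ x ∈ Icc (0 : ℝ) 1 := by
      simp only [mem_Icc]
      constructor <;> rintro ⟨h1, h2⟩ <;> constructor <;> linarith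
    by_cases hx : x ∈ Icc (0 : ℝ) 1
    · rw [indicator_of_mem hx, indicator_of_mem (e.2 hx), hh]
      simp
    · rw [indicator_of_notMem hx, indicator_of_notMem (fun h => hx (e.1 h))]
  have hlog : Real.log ((ρ + 1) / ρ) ≤ 1 + Real.log (1 / ρ) := by
    have h2 : (ρ + 1) / ρ ≤ 2 * (1 / ρ) := by
      rw [div_le_iff₀ hρ]
      field_simp
      linarith
    have h3 : Real.log ((ρ + 1) / ρ) ≤ Real.log (2 * (1 / ρ)) :=
      Real.log_le_log (by positivity) h2
    rw [Real.log_mul (by norm_num) (by positivity)] at h3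
    have := Real.log_two_lt_d9
    linarith
  calc ∫⁻ x in Icc (-1 : ℝ) 1, h x ≤ ∫⁻ x in Icc (-1 : ℝ) 0 ∪ Icc 0 1, h x :=
        lintegral_mono_set hsub
    _ ≤ (∫⁻ x in Icc (-1 : ℝ) 0, h x) + ∫⁻ x in Icc (0 : ℝ) 1, h x :=
        lintegral_union_le _ _ _
    _ = ENNReal.ofReal (Real.log ((ρ + 1) / ρ)) + ENNReal.ofReal (Real.log ((ρ + 1) / ρ)) := by
        rw [hneg, hh, half_int hρ]
    _ ≤ _ := by
        rw [← two_mul, ← ENNReal.ofReal_ofNat, ← ENNReal.ofReal_mul (by norm_num)]
        apply ENNReal.ofReal_le_ofReal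
        linarith

/-- Blocks with one coordinate. -/
theorem base_one (hι : Fintype.card ι = 1) {ρ : ℝ} (hρ : 0 < ρ) (hρ1 : ρ ≤ 1)
    {F : (ι → ℝ) → ℝ≥0∞} (hF : Measurable F) :
    ∫⁻ v, NN ρ F v ^ 1 ∂(cu ι) ≤
      ENNReal.ofReal (2 * (1 + Real.log (1 / ρ))) * ∫⁻ y, F y ^ 1 := by
  obtain ⟨hu⟩ := Fintype.card_eq_one_iff_nonempty_unique.1 hι
  simp only [pow_one]
  set J : ℝ≥0∞ := ∫⁻ y, F y with hJ
  have hT : ∀ v a y : ι → ℝ, TT ρ v a y ≤ ENNReal.ofReal (4 * ρ / (ρ + |v default|)) := by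
    intro v a y
    rcases le_or_gt |v default| ρ with h | h
    · refine (TT_le_two ρ v a y).trans ?_
      rw [← ENNReal.ofReal_ofNat]
      apply ENNReal.ofReal_le_ofReal
      rw [le_div_iff₀ (by positivity)]
      linarith
    · have hv : v default ≠ 0 := by
        intro h0
        rw [h0, abs_zero] at h
        linarith
      refine (TT_le v a y default hv).trans ?_
      apply ENNReal.ofReal_le_ofReal
      have h0 : 0 < |v default| := hρ.trans h
      rw [le_div_iff₀ (by positivity)]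
      have e : 2 * (ρ / |v default|) * (ρ + |v default|) = 2 * ρ + 2 * ρ * (ρ / |v default|) := by
        field_simp
        ring
      rw [e]
      have : ρ / |v default| ≤ 1 := by rw [div_le_one h0]; exact h.le
      nlinarith
  have hN : ∀ v, NN ρ F v ≤ ENNReal.ofReal (1 / (ρ + |v default|)) * J := by
    intro v
    apply iSup_le
    intro q
    rw [Av_eq hρ hF, hι, pow_one]
    have h1 : ∫⁻ y, F y * TT ρ v (fun i => (q i : ℝ)) y ≤
        J * ENNReal.ofReal (4 * ρ / (ρ + |v default|)) := by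
      rw [hJ, ← lintegral_mul_const _ hF]
      apply lintegral_mono
      intro y
      exact mul_le_mul' le_rfl (hT _ _ _)
    have h0 : 0 < ρ + |v default| := by positivity
    calc (ENNReal.ofReal 2)⁻¹ * (ENNReal.ofReal (2 * ρ))⁻¹ *
          ∫⁻ y, F y * TT ρ v (fun i => (q i : ℝ)) y
        ≤ (ENNReal.ofReal 2)⁻¹ * (ENNReal.ofReal (2 * ρ))⁻¹ *
          (J * ENNReal.ofReal (4 * ρ / (ρ + |v default|))) := by gcongr
      _ = ((ENNReal.ofReal 2)⁻¹ * (ENNReal.ofReal (2 * ρ))⁻¹ *
          ENNReal.ofReal (4 * ρ / (ρ + |v default|))) * J := by ring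
      _ = _ := by
          congr 1
          rw [← ENNReal.ofReal_inv_of_pos (by norm_num), ← ENNReal.ofReal_inv_of_pos (by positivity),
            ← ENNReal.ofReal_mul (by positivity), ← ENNReal.ofReal_mul (by positivity)]
          congr 1
          field_simp
          ring
  rename_i inst
  obtain rfl : inst = @Unique.fintype ι hu := Subsingleton.elim _ _
  have hpres := measurePreserving_funUnique (volume.restrict (Icc (-1 : ℝ) 1)) ι
  have hm : Measurable (fun x : ℝ => ENNReal.ofReal (1 / (ρ + |x|)) * J) := by fun_prop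
  have h2 := hpres.lintegral_comp hm
  calc ∫⁻ v, NN ρ F v ∂(cu ι) ≤ ∫⁻ v, ENNReal.ofReal (1 / (ρ + |v default|)) * J ∂(cu ι) :=
        lintegral_mono hN
    _ = ∫⁻ x in Icc (-1 : ℝ) 1, ENNReal.ofReal (1 / (ρ + |x|)) * J := by
        rw [← h2]
        rfl
    _ = (∫⁻ x in Icc (-1 : ℝ) 1, ENNReal.ofReal (1 / (ρ + |x|))) * J := by
        rw [lintegral_mul_const]
        fun_prop
    _ ≤ _ := by
        gcongr
        exact full_int hρ hρ1

end Pool.Agent.TH225.CK
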