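import Pool.Agent.TH225.CK.E
import Pool.Agent.W767.Sd.Main
import Pool.Agent.W767.Kc.FourV

set_option autoImplicit false

/-!
# Blocks of two coordinates
-/

open MeasureTheory Set Filter Topology ENNReal NNReal Function

namespace Pool.Agent.TH225.CK

open Pool.Agent.H742R2.Kk (E)
open Pool.Agent.W767.Sd (cyl)

set_option linter.unusedSectionVars false

variable {ι : Type} [Fintype ι]

/-- The plane as `ι → ℝ`. -/
def Phi (ε : ι ≃ Fin 2) (x : E 2) : ι → ℝ := fun i => x (ε i)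

theorem Phi_smul (ε : ι ≃ Fin 2) (t : ℝ) (x : E 2) : Phi ε (t • x) = t • Phi ε x := by
  funext i; simp [Phi]

theorem Phi_add (ε : ι ≃ Fin 2) (x y : E 2) : Phi ε (x + y) = Phi ε x + Phi ε y := by
  funext i; simp [Phi]

theorem Phi_sub (ε : ι ≃ Fin 2) (x y : E 2) : Phi ε (x - y) = Phi ε x - Phi ε y := by
  funext i; simp [Phi]

theorem Phi_surj (ε : ι ≃ Fin 2) (a : ι → ℝ) : ∃ x : E 2, Phi ε x = a :=
  ⟨WithLp.toLp 2 (fun j => a (ε.symm j)), by funext i; simp [Phi]⟩

theorem mp_Phi (ε : ι ≃ Fin 2) : MeasurePreserving (Phi ε) := by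
  have h1 := PiLp.volume_preserving_ofLp (Fin 2)
  have h2 := volume_preserving_arrowCongr' ε.symm (MeasurableEquiv.refl ℝ)
    (MeasurePreserving.id _)
  exact h2.comp h1

theorem measurable_TT (ρ : ℝ) (v a : ι → ℝ) : Measurable (TT ρ v a) := by
  have hm : Measurable (fun q : (ι → ℝ) × ℝ => ind (box ι ρ) (q.1 - (a + q.2 • v))) :=
    (measurable_ind (measurableSet_box ρ)).comp (by fun_prop)
  exact Measurable.lintegral_prod_right' hm

theorem norm_le_coord (x : E 2) : ∃ j : Fin 2, ‖x‖ ≤ 3 / 2 * |x j| := by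
  by_contra h
  push Not at h
  have h0 := h 0
  have h1 := h 1
  have hs : ‖x‖ ^ 2 = x 0 ^ 2 + x 1 ^ 2 := by
    rw [EuclideanSpace.norm_sq_eq, Fin.sum_univ_two]
    simp [Real.norm_eq_abs, sq_abs]
  have e0 : |x 0| ^ 2 = x 0 ^ 2 := sq_abs _
  have e1 : |x 1| ^ 2 = x 1 ^ 2 := sq_abs _
  have a0 := abs_nonneg (x 0)
  have a1 := abs_nonneg (x 1)
  nlinarith [norm_nonneg x]

theorem norm_le_of_coord {x : E 2} {ρ : ℝ} (hρ : 0 ≤ ρ) (h : ∀ j, |x j| ≤ ρ) :
    ‖x‖ ≤ 3 / 2 * ρ := by
  obtain ⟨j, hj⟩ := norm_le_coord x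
  exact hj.trans (by nlinarith [h j])

theorem alg_aux (k c d : ℝ) (e w : E 2) :
    k • (c • e + w) - (k * (c + d)) • e = k • (w - d • e) := by
  module

theorem point {ρ l : ℝ} (ε : ι ≃ Fin 2) (hι : Fintype.card ι = 2) (hρ : 0 < ρ) (hl : 4 * ρ ≤ l)
    {F : (ι → ℝ) → ℝ≥0∞} (hF : Measurable F) {M : E 2 → ℝ≥0∞}
    (hM : ∀ e b : E 2, ‖e‖ = 1 → ((ENNReal.ofReal (2 * ρ / l) ^ 1)⁻¹ *
      ∫⁻ y in cyl (2 * ρ / l) 1 e b, F (Phi ε (l • y))) ^ (1 + 1) ≤ M e)
    {x : E 2} (hx1 : l / 4 ≤ ‖x‖) (hx2 : ‖x‖ ≤ l / 2) :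
    NN ρ F (Phi ε x) ^ 2 ≤ 9 * M (‖x‖⁻¹ • x) := by
  have hl0 : 0 < l := by linarith
  set s := ‖x‖ with hs
  have hs0 : 0 < s := by linarith
  set e : E 2 := s⁻¹ • x with he
  have he1 : ‖e‖ = 1 := by
    rw [he, norm_smul, norm_inv, Real.norm_of_nonneg hs0.le, ← hs, inv_mul_cancel₀ hs0.ne']
  have hxe : x = s • e := by rw [he, smul_smul, mul_inv_cancel₀ hs0.ne', one_smul]
  set r : ℝ := 2 * ρ / l with hr
  have hr0 : 0 < r := by positivity
  obtain ⟨j, hj⟩ := norm_le_coord x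
  have hj0 : 0 < |x j| := by
    by_contra h
    have : |x j| ≤ 0 := not_lt.1 h
    nlinarith
  unfold NN
  rw [ENNReal.iSup_pow]
  apply iSup_le
  intro q
  obtain ⟨a, ha⟩ := Phi_surj ε (fun i => (q i : ℝ))
  rw [← ha]
  set b : E 2 := l⁻¹ • a with hb
  -- the time
  have hT : ∀ y : E 2, TT ρ (Phi ε x) (Phi ε a) (Phi ε y) ≤
      ind (cyl r 1 e b) (l⁻¹ • y) * ENNReal.ofReal (12 * ρ / l) := by
    intro y
    by_cases hy : l⁻¹ • y ∈ cyl r 1 e b
    · have h1 : ind (cyl r 1 e b) (l⁻¹ • y) = 1 := by simp only [ind]; rw [indicator_of_mem hy]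
      rw [h1, one_mul]
      have hv : Phi ε x (ε.symm j) ≠ 0 := by
        simp only [Phi, Equiv.apply_symm_apply]
        exact abs_pos.1 hj0
      refine (TT_le _ _ _ (ε.symm j) hv).trans ?_
      apply ENNReal.ofReal_le_ofReal
      simp only [Phi, Equiv.apply_symm_apply]
      rw [mul_div_assoc', div_le_div_iff₀ hj0 hl0]
      nlinarith
    · -- the time is zero
      have h0 : TT ρ (Phi ε x) (Phi ε a) (Phi ε y) = 0 := by
        unfold TT
        have hmt : Measurable (fun t : ℝ =>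
            ind (box ι ρ) (Phi ε y - (Phi ε a + t • Phi ε x))) :=
          (measurable_ind (measurableSet_box ρ)).comp (by fun_prop)
        rw [lintegral_eq_zero_iff' hmt.aemeasurable]
        filter_upwards [ae_restrict_mem measurableSet_Icc] with t ht
        have hnot : Phi ε y - (Phi ε a + t • Phi ε x) ∉ box ι ρ := by
          intro hbox
          apply hy
          set w : E 2 := y - (a + t • x) with hw
          have hPw : Phi ε w = Phi ε y - (Phi ε a + t • Phi ε x) := by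
            rw [hw, Phi_sub, Phi_add, Phi_smul]
          rw [← hPw] at hbox
          have hwc : ∀ i, |w i| ≤ ρ := by
            intro i
            have h1 := hbox (ε.symm i) (mem_univ _)
            simp only [Phi, Equiv.apply_symm_apply] at h1
            exact abs_le.2 h1
          have hwn : ‖w‖ ≤ 3 / 2 * ρ := norm_le_of_coord hρ.le hwc
          have e1 : l⁻¹ • y - b = l⁻¹ • ((t * s) • e + w) := by
            have e2 : (t * s) • e = t • x := by rw [mul_smul, ← hxe]
            rw [hb, e2, hw, ← smul_sub]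
            congr 1
            abel
          have hie : (inner ℝ (l⁻¹ • ((t * s) • e + w)) e : ℝ) = l⁻¹ * (t * s + inner ℝ w e) := by
            rw [real_inner_smul_left, inner_add_left, real_inner_smul_left,
              real_inner_self_eq_norm_sq, he1]
            ring
          have hwe : |(inner ℝ w e : ℝ)| ≤ 3 / 2 * ρ := by
            have := abs_real_inner_le_norm w e
            rw [he1, mul_one] at this
            linarith
          refine ⟨?_, ?_⟩
          · rw [e1, hie, abs_mul, abs_of_pos (inv_pos.2 hl0), inv_mul_le_iff₀ hl0, mul_one]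
            have h2 : |t * s| ≤ l / 2 := by
              rw [abs_mul, abs_of_pos hs0]
              have : |t| ≤ 1 := abs_le.2 ht
              nlinarith
            have h3 := abs_add_le (t * s) (inner ℝ w e : ℝ)
            linarith
          · rw [e1, hie]
            rw [alg_aux, norm_smul, norm_inv, Real.norm_of_nonneg hl0.le, inv_mul_le_iff₀ hl0]
            have h4 := Pool.Agent.W767.Sd.perp_le (v := w) he1
            have h5 : l * r = 2 * ρ := by rw [hr]; field_simp
            rw [h5]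
            linarith
        simp [ind, hnot]
      rw [h0]
      exact zero_le
  have hmp := mp_Phi ε
  have hcylm : MeasurableSet (cyl r 1 e b) := (Pool.Agent.W767.Sd.isClosed_cyl _ _ _ _).measurableSet
  have hGm : Measurable (fun y : E 2 => ind (cyl r 1 e b) (l⁻¹ • y) * F (Phi ε y)) :=
    ((measurable_ind hcylm).comp (by fun_prop)).mul (hF.comp hmp.measurable)
  have h1 : ∫⁻ y, F y * TT ρ (Phi ε x) (Phi ε a) y ≤
      ENNReal.ofReal (12 * ρ / l) * ∫⁻ y : E 2, ind (cyl r 1 e b) (l⁻¹ • y) * F (Phi ε y) := by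
    have hmF : Measurable (fun y => F y * TT ρ (Phi ε x) (Phi ε a) y) :=
      hF.mul (measurable_TT ρ _ _)
    rw [← hmp.lintegral_comp hmF, ← lintegral_const_mul _ hGm]
    apply lintegral_mono
    intro y
    calc F (Phi ε y) * TT ρ (Phi ε x) (Phi ε a) (Phi ε y)
        ≤ F (Phi ε y) * (ind (cyl r 1 e b) (l⁻¹ • y) * ENNReal.ofReal (12 * ρ / l)) :=
          mul_le_mul' le_rfl (hT y)
      _ = _ := by ring
  have h2 : ∫⁻ y : E 2, ind (cyl r 1 e b) (l⁻¹ • y) * F (Phi ε y) =
      ENNReal.ofReal (l ^ 2) * ∫⁻ y in cyl r 1 e b, F (Phi ε (l • y)) := by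
    have h3 := Pool.Agent.W767.Kc.lintegral_comp_smulV hGm hl0.ne'
    rw [finrank_euclideanSpace_fin] at h3
    have e4 : ∀ y : E 2, ind (cyl r 1 e b) (l⁻¹ • l • y) * F (Phi ε (l • y)) =
        (cyl r 1 e b).indicator (fun y => F (Phi ε (l • y))) y := by
      intro y
      rw [smul_smul, inv_mul_cancel₀ hl0.ne', one_smul]
      by_cases hy : y ∈ cyl r 1 e b
      · simp [ind, hy]
      · simp [ind, hy]
    simp only [e4] at h3
    rw [lintegral_indicator hcylm] at h3
    rw [h3, ← mul_assoc, ← ENNReal.ofReal_mul (by positivity), abs_of_pos (by positivity),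
      mul_inv_cancel₀ (by positivity), ENNReal.ofReal_one, one_mul]
  have h3 : Av ρ F (Phi ε x) (Phi ε a) ≤ 3 * ((ENNReal.ofReal r ^ 1)⁻¹ *
      ∫⁻ y in cyl r 1 e b, F (Phi ε (l • y))) := by
    rw [Av_eq hρ hF, hι]
    calc (ENNReal.ofReal 2)⁻¹ * (ENNReal.ofReal (2 * ρ))⁻¹ ^ 2 *
          ∫⁻ y, F y * TT ρ (Phi ε x) (Phi ε a) y
        ≤ (ENNReal.ofReal 2)⁻¹ * (ENNReal.ofReal (2 * ρ))⁻¹ ^ 2 *
          (ENNReal.ofReal (12 * ρ / l) * (ENNReal.ofReal (l ^ 2) *
            ∫⁻ y in cyl r 1 e b, F (Phi ε (l • y)))) := by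
          rw [← h2]
          gcongr
      _ = ((ENNReal.ofReal 2)⁻¹ * (ENNReal.ofReal (2 * ρ))⁻¹ ^ 2 *
          ENNReal.ofReal (12 * ρ / l) * ENNReal.ofReal (l ^ 2)) *
            ∫⁻ y in cyl r 1 e b, F (Phi ε (l • y)) := by ring
      _ = _ := by
          rw [pow_one, ← mul_assoc]
          congr 1
          rw [← ENNReal.ofReal_inv_of_pos (by norm_num), ← ENNReal.ofReal_inv_of_pos (by positivity),
            ← ENNReal.ofReal_inv_of_pos hr0, ← ENNReal.ofReal_pow (by positivity),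
            ← ENNReal.ofReal_mul (by positivity), ← ENNReal.ofReal_mul (by positivity),
            ← ENNReal.ofReal_mul (by positivity), ← ENNReal.ofReal_ofNat,
            ← ENNReal.ofReal_mul (by norm_num)]
          congr 1
          rw [hr]
          field_simp
          ring
  calc Av ρ F (Phi ε x) (Phi ε a) ^ 2 ≤ (3 * ((ENNReal.ofReal r ^ 1)⁻¹ *
      ∫⁻ y in cyl r 1 e b, F (Phi ε (l • y)))) ^ 2 := by gcongr
    _ = 9 * ((ENNReal.ofReal r ^ 1)⁻¹ * ∫⁻ y in cyl r 1 e b, F (Phi ε (l • y))) ^ (1 + 1) := by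
        rw [mul_pow]; norm_num
    _ ≤ 9 * M e := by
        gcongr
        exact hM e b he1

end Pool.Agent.TH225.CK
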