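import Pool.Agent.TH225.CK.F

set_option autoImplicit false

/-!
# Blocks of two coordinates: the maximal estimate
-/

open MeasureTheory Set Filter Topology ENNReal NNReal Function

namespace Pool.Agent.TH225.CK

open Pool.Agent.H742R2.Kk (E)
open Pool.Agent.W767.Sd (cyl)
open Metric

set_option linter.unusedSectionVars false

variable {ι : Type} [Fintype ι]

theorem NN_sq_le {ρ : ℝ} (hρ : 0 < ρ) {F : (ι → ℝ) → ℝ≥0∞} (hF : Measurable F) (v : ι → ℝ) {n : ℕ}
    (hn : 1 ≤ n) :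
    NN ρ F v ^ n ≤ ((ENNReal.ofReal (2 * ρ))⁻¹) ^ Fintype.card ι * ∫⁻ y, F y ^ n := by
  have := un_prob (one_pos)
  have := bx_prob ι hρ
  unfold NN
  rw [ENNReal.iSup_pow_of_ne_zero (by omega)]
  apply iSup_le
  intro q
  set a : ι → ℝ := fun i => (q i : ℝ) with ha
  have h1 : ∀ t : ℝ, Measurable fun w => F (a + t • v + w) := fun t => hF.comp (by fun_prop)
  have hm2 : Measurable (fun t : ℝ => ∫⁻ w, F (a + t • v + w) ∂(bx ι ρ)) := by
    have h1 : Measurable (fun q : ℝ × (ι → ℝ) => F (a + q.1 • v + q.2)) := hF.comp (by fun_prop)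
    exact Measurable.lintegral_prod_right' h1
  have hn1 : (1 : ℝ) ≤ n := by exact_mod_cast hn
  have hj : ∀ t : ℝ, (∫⁻ w, F (a + t • v + w) ∂(bx ι ρ)) ^ (n : ℝ) ≤
      ((ENNReal.ofReal (2 * ρ))⁻¹) ^ Fintype.card ι * ∫⁻ y, F y ^ n := by
    intro t
    calc (∫⁻ w, F (a + t • v + w) ∂(bx ι ρ)) ^ (n : ℝ)
        ≤ ∫⁻ w, F (a + t • v + w) ^ (n : ℝ) ∂(bx ι ρ) := jensen _ (h1 t).aemeasurable hn1
      _ ≤ ((ENNReal.ofReal (2 * ρ))⁻¹) ^ Fintype.card ι * ∫⁻ w, F (a + t • v + w) ^ (n : ℝ) :=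
          bx_le ι hρ _
      _ = _ := by
          congr 1
          simp only [ENNReal.rpow_natCast]
          exact lintegral_add_left_eq_self (fun y => F y ^ n) (a + t • v)
  calc Av ρ F v a ^ n = (∫⁻ t, ∫⁻ w, F (a + t • v + w) ∂(bx ι ρ) ∂(un 1)) ^ (n : ℝ) := by
        rw [ENNReal.rpow_natCast]; rfl
    _ ≤ ∫⁻ t, (∫⁻ w, F (a + t • v + w) ∂(bx ι ρ)) ^ (n : ℝ) ∂(un 1) :=
        jensen _ hm2.aemeasurable hn1
    _ ≤ ∫⁻ _ : ℝ, (((ENNReal.ofReal (2 * ρ))⁻¹) ^ Fintype.card ι * ∫⁻ y, F y ^ n) ∂(un 1) :=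
        lintegral_mono hj
    _ = _ := by rw [lintegral_const, measure_univ, mul_one]

/-- A ball of radius comparable to `ρ`. -/
theorem ball_small {ρ r : ℝ} (ε : ι ≃ Fin 2) (hι : Fintype.card ι = 2) (hρ : 0 < ρ) (hr : 0 ≤ r)
    (hrρ : r ≤ 2 * ρ) {F : (ι → ℝ) → ℝ≥0∞} (hF : Measurable F) :
    ∫⁻ x in closedBall (0 : E 2) r, NN ρ F (Phi ε x) ^ 2 ≤ 4 * ∫⁻ y, F y ^ 2 := by
  calc ∫⁻ x in closedBall (0 : E 2) r, NN ρ F (Phi ε x) ^ 2
      ≤ ∫⁻ _ in closedBall (0 : E 2) r,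
        ((ENNReal.ofReal (2 * ρ))⁻¹) ^ 2 * ∫⁻ y, F y ^ 2 := by
        apply lintegral_mono
        intro x
        have := NN_sq_le hρ hF (Phi ε x) (n := 2) (by norm_num)
        rwa [hι] at this
    _ = ((ENNReal.ofReal (2 * ρ))⁻¹ ^ 2 * (ENNReal.ofReal r ^ 2 * ENNReal.ofReal Real.pi)) *
        ∫⁻ y, F y ^ 2 := by
        rw [lintegral_const, Measure.restrict_apply_univ, EuclideanSpace.volume_closedBall_fin_two]
        ring
    _ ≤ _ := by
        gcongr
        rw [← ENNReal.ofReal_inv_of_pos (by positivity), ← ENNReal.ofReal_pow (by positivity),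
          ← ENNReal.ofReal_pow (by positivity), ← ENNReal.ofReal_mul (by positivity),
          ← ENNReal.ofReal_mul (by positivity), ← ENNReal.ofReal_ofNat]
        apply ENNReal.ofReal_le_ofReal
        have h1 : r ^ 2 ≤ (2 * ρ) ^ 2 := by gcongr
        have h2 : ((2 * ρ)⁻¹) ^ 2 * r ^ 2 ≤ 1 := by
          rw [inv_pow, inv_mul_le_iff₀ (by positivity)]
          linarith
        have h3 := Real.pi_pos
        have h4 := Real.pi_le_four
        calc ((2 * ρ)⁻¹) ^ 2 * (r ^ 2 * Real.pi) = ((2 * ρ)⁻¹) ^ 2 * r ^ 2 * Real.pi := by ring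
          _ ≤ 1 * 4 := by gcongr
          _ = _ := by norm_num

/-- An annulus. -/
theorem annulus {D : ℝ} (hD : 0 < D) (hbase : ∀ ρ : ℝ, 0 < ρ → ρ ≤ 1 → ∀ F : E 2 → ℝ≥0∞,
    Measurable F → Pool.Agent.W767.Sd.PropMax 1 ρ (ENNReal.ofReal (D * (1 + Real.log (1 / ρ)))) F)
    {ρ r : ℝ} (ε : ι ≃ Fin 2) (hι : Fintype.card ι = 2) (hρ : 0 < ρ) (hρ1 : ρ ≤ 1)
    (hr2 : r ≤ 2) (hrρ : 2 * ρ ≤ r) {F : (ι → ℝ) → ℝ≥0∞} (hF : Measurable F) :
    ∫⁻ x in closedBall (0 : E 2) r \ ball 0 (r / 2), NN ρ F (Phi ε x) ^ 2 ≤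
      ENNReal.ofReal (5 * D * (1 + Real.log (1 / ρ))) * ∫⁻ y, F y ^ 2 := by
  have hr0 : 0 < r := by linarith
  set l : ℝ := 2 * r with hl
  have hl0 : 0 < l := by positivity
  have h4 : 4 * ρ ≤ l := by linarith
  have hmp := mp_Phi ε
  set Fl : E 2 → ℝ≥0∞ := fun y => F (Phi ε (l • y)) with hFl
  have hFlm : Measurable Fl := by
    have : Measurable (fun y : E 2 => Phi ε (l • y)) := hmp.measurable.comp (by fun_prop)
    exact hF.comp this
  set ρ' : ℝ := 2 * ρ / l with hρ'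
  have hρ'0 : 0 < ρ' := by positivity
  have hρ'1 : ρ' ≤ 1 := by rw [hρ', div_le_one hl0]; linarith
  obtain ⟨M, hM1, hM2, hM3⟩ := hbase ρ' hρ'0 hρ'1 Fl hFlm
  have hlog : 0 ≤ Real.log (1 / ρ) := Real.log_nonneg (by rw [le_div_iff₀ hρ]; linarith)
  have hlog' : 1 + Real.log (1 / ρ') ≤ 2 * (1 + Real.log (1 / ρ)) := by
    have h1 : 1 / ρ' ≤ 2 * (1 / ρ) := by
      rw [hρ', one_div_div, mul_one_div, div_le_div_iff₀ (by positivity) hρ]
      nlinarith
    have h2 : Real.log (1 / ρ') ≤ Real.log (2 * (1 / ρ)) :=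
      Real.log_le_log (by positivity) h1
    rw [Real.log_mul (by norm_num) (by positivity)] at h2
    have h3 := Real.log_two_lt_d9
    linarith
  have hpt : ∀ x ∈ closedBall (0 : E 2) r \ ball 0 (r / 2),
      NN ρ F (Phi ε x) ^ 2 ≤ 9 * M (‖x‖⁻¹ • x) := by
    intro x hx
    have hx1 := hx.1
    have hx2 := hx.2
    rw [mem_closedBall_zero_iff] at hx1
    rw [mem_ball_zero_iff, not_lt] at hx2
    exact point ε hι hρ h4 hF hM2 (by rw [hl]; linarith) (by rw [hl]; linarith)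
  have hint : ∫⁻ x in closedBall (0 : E 2) r, M (‖x‖⁻¹ • x) =
      ENNReal.ofReal (r ^ 2) * ∫⁻ x in closedBall (0 : E 2) 1, M (‖x‖⁻¹ • x) := by
    have hgm : Measurable (fun x : E 2 => (closedBall (0 : E 2) r).indicator
        (fun x => M (‖x‖⁻¹ • x)) x) :=
      (hM1.comp (by fun_prop)).indicator measurableSet_closedBall
    have h3 := Pool.Agent.W767.Kc.lintegral_comp_smulV hgm hr0.ne'
    rw [finrank_euclideanSpace_fin] at h3
    have e4 : ∀ y : E 2, (closedBall (0 : E 2) r).indicator (fun x => M (‖x‖⁻¹ • x)) (r • y) =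
        (closedBall (0 : E 2) 1).indicator (fun x => M (‖x‖⁻¹ • x)) y := by
      intro y
      have hiff : r • y ∈ closedBall (0 : E 2) r ↔ y ∈ closedBall (0 : E 2) 1 := by
        rw [mem_closedBall_zero_iff, mem_closedBall_zero_iff, norm_smul,
          Real.norm_of_nonneg hr0.le]
        constructor
        · intro h; by_contra hc; push Not at hc; nlinarith
        · intro h; nlinarith
      by_cases hy : y ∈ closedBall (0 : E 2) 1
      · rw [indicator_of_mem hy, indicator_of_mem (hiff.2 hy)]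
        congr 1
        rw [norm_smul, Real.norm_of_nonneg hr0.le, mul_inv, smul_smul]
        congr 1
        field_simp
      · rw [indicator_of_notMem hy, indicator_of_notMem (fun h => hy (hiff.1 h))]
    simp only [e4] at h3
    rw [lintegral_indicator measurableSet_closedBall,
      lintegral_indicator measurableSet_closedBall] at h3
    rw [h3, ← mul_assoc, ← ENNReal.ofReal_mul (by positivity), abs_of_pos (by positivity),
      mul_inv_cancel₀ (by positivity), ENNReal.ofReal_one, one_mul]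
  have hFl2 : ∫⁻ y, Fl y ^ (1 + 1) = ENNReal.ofReal ((l ^ 2)⁻¹) * ∫⁻ y, F y ^ 2 := by
    have hgm : Measurable (fun x : E 2 => F (Phi ε x) ^ 2) :=
      (hF.comp hmp.measurable).pow_const _
    have h3 := Pool.Agent.W767.Kc.lintegral_comp_smulV hgm hl0.ne'
    rw [finrank_euclideanSpace_fin, abs_of_pos (by positivity)] at h3
    have h5 := hmp.lintegral_comp (hF.pow_const 2)
    rw [h5] at h3
    exact h3
  calc ∫⁻ x in closedBall (0 : E 2) r \ ball 0 (r / 2), NN ρ F (Phi ε x) ^ 2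
      ≤ ∫⁻ x in closedBall (0 : E 2) r \ ball 0 (r / 2), 9 * M (‖x‖⁻¹ • x) :=
        setLIntegral_mono' (measurableSet_closedBall.diff measurableSet_ball) hpt
    _ ≤ ∫⁻ x in closedBall (0 : E 2) r, 9 * M (‖x‖⁻¹ • x) :=
        lintegral_mono_set sdiff_subset
    _ = 9 * (ENNReal.ofReal (r ^ 2) * ∫⁻ x in closedBall (0 : E 2) 1, M (‖x‖⁻¹ • x)) := by
        have hmm : Measurable (fun x : E 2 => M (‖x‖⁻¹ • x)) := hM1.comp (by fun_prop)
        rw [lintegral_const_mul _ hmm, hint]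
    _ ≤ 9 * (ENNReal.ofReal (r ^ 2) * (ENNReal.ofReal (D * (1 + Real.log (1 / ρ'))) *
        (ENNReal.ofReal ((l ^ 2)⁻¹) * ∫⁻ y, F y ^ 2))) := by
        rw [← hFl2]
        gcongr
    _ = (9 * (ENNReal.ofReal (r ^ 2) * (ENNReal.ofReal (D * (1 + Real.log (1 / ρ'))) *
        ENNReal.ofReal ((l ^ 2)⁻¹)))) * ∫⁻ y, F y ^ 2 := by ring
    _ ≤ _ := by
        gcongr
        have hlρ : 0 ≤ Real.log (1 / ρ') :=
          Real.log_nonneg (by rw [le_div_iff₀ hρ'0]; linarith)
        rw [← ENNReal.ofReal_mul (by positivity), ← ENNReal.ofReal_mul (by positivity),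
          ← ENNReal.ofReal_ofNat, ← ENNReal.ofReal_mul (by norm_num)]
        apply ENNReal.ofReal_le_ofReal
        have e1 : 9 * (r ^ 2 * (D * (1 + Real.log (1 / ρ')) * (l ^ 2)⁻¹)) =
            9 / 4 * (D * (1 + Real.log (1 / ρ'))) := by
          rw [hl]; field_simp; ring
        rw [e1]
        have e2 : D * (1 + Real.log (1 / ρ')) ≤ D * (2 * (1 + Real.log (1 / ρ))) := by gcongr
        have e3 : 0 ≤ D * (1 + Real.log (1 / ρ)) := by positivity
        linarith

theorem base_two : ∃ C : ℝ, 0 < C ∧ ∀ (ι : Type) [Fintype ι], Fintype.card ι = 2 →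
    ∀ ρ : ℝ, 0 < ρ → ρ ≤ 1 → ∀ F : (ι → ℝ) → ℝ≥0∞, Measurable F →
    ∫⁻ v, NN ρ F v ^ 2 ∂(cu ι) ≤
      ENNReal.ofReal (C * (1 + Real.log (1 / ρ)) ^ 2) * ∫⁻ y, F y ^ 2 := by
  obtain ⟨D, hD, hbase⟩ := Pool.Agent.W767.Sd.base
  refine ⟨3 * (5 * D + 4), by positivity, ?_⟩
  intro ι _ hι ρ hρ hρ1 F hF
  have ε : ι ≃ Fin 2 := Fintype.equivFinOfCardEq hι
  have hmp := mp_Phi ε
  obtain ⟨I0, hI0, hI0'⟩ := Pool.Agent.W767.Sd.exists_I0 hρ hρ1
  have hlog : 0 ≤ Real.log (1 / ρ) := Real.log_nonneg (by rw [le_div_iff₀ hρ]; linarith)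
  set L := 1 + Real.log (1 / ρ) with hL
  have hL1 : 1 ≤ L := by linarith
  set S := ∫⁻ y, F y ^ 2 with hS
  set H : E 2 → ℝ≥0∞ := fun x => NN ρ F (Phi ε x) ^ 2 with hH
  -- the cube lies in the ball
  have h1 : ∫⁻ v, NN ρ F v ^ 2 ∂(cu ι) ≤ ∫⁻ x in closedBall (0 : E 2) 2, H x := by
    have hm : Measurable (fun v => ind (box ι 1) v * NN ρ F v ^ 2) :=
      (measurable_ind (measurableSet_box 1)).mul ((measurable_NN hρ hF).pow_const 2)
    have e1 : ∫⁻ v, NN ρ F v ^ 2 ∂(cu ι) = ∫⁻ v, ind (box ι 1) v * NN ρ F v ^ 2 := by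
      rw [cu_eq]
      change ∫⁻ v in box ι 1, NN ρ F v ^ 2 = _
      rw [← lintegral_indicator (measurableSet_box 1)]
      apply lintegral_congr
      intro v
      by_cases hv : v ∈ box ι 1
      · simp [ind, hv]
      · simp [ind, hv]
    rw [e1, ← hmp.lintegral_comp hm, ← lintegral_indicator measurableSet_closedBall]
    apply lintegral_mono
    intro x
    by_cases hx : Phi ε x ∈ box ι 1
    · have hx2 : x ∈ closedBall (0 : E 2) 2 := by
        rw [mem_closedBall_zero_iff]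
        have : ∀ j, |x j| ≤ 1 := by
          intro j
          have h1 := hx (ε.symm j) (mem_univ _)
          simp only [Phi, Equiv.apply_symm_apply] at h1
          exact abs_le.2 h1
        have := norm_le_of_coord zero_le_one this
        linarith
      rw [indicator_of_mem hx2]
      simp [ind, hx, hH]
    · simp [ind, hx]
  -- radii
  have hrad : ∀ J : ℕ, ∫⁻ x in closedBall (0 : E 2) 2, H x ≤
      J * (ENNReal.ofReal ((5 * D + 4) * L) * S) +
        ∫⁻ x in closedBall (0 : E 2) (2 / 2 ^ J), H x := by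
    intro J
    induction J with
    | zero => simp
    | succ J ih =>
      refine ih.trans ?_
      have hone : ∫⁻ x in closedBall (0 : E 2) (2 / 2 ^ J), H x ≤
          ENNReal.ofReal ((5 * D + 4) * L) * S +
            ∫⁻ x in closedBall (0 : E 2) (2 / 2 ^ (J + 1)), H x := by
        have hr0 : (0 : ℝ) < 2 / 2 ^ J := by positivity
        have hr2 : (2 : ℝ) / 2 ^ J ≤ 2 := by
          rw [div_le_iff₀ (by positivity)]
          have : (1 : ℝ) ≤ 2 ^ J := one_le_pow₀ (by norm_num)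
          linarith
        have hrr : (2 : ℝ) / 2 ^ (J + 1) = 2 / 2 ^ J / 2 := by rw [pow_succ]; field_simp
        rcases le_or_gt (2 * ρ) (2 / 2 ^ J) with hc | hc
        · have hsub : closedBall (0 : E 2) (2 / 2 ^ J) ⊆
              (closedBall (0 : E 2) (2 / 2 ^ J) \ ball 0 (2 / 2 ^ J / 2)) ∪
                closedBall (0 : E 2) (2 / 2 ^ (J + 1)) := by
            intro x hx
            by_cases hx2 : x ∈ ball (0 : E 2) (2 / 2 ^ J / 2)
            · right
              rw [hrr]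
              exact ball_subset_closedBall hx2
            · left; exact ⟨hx, hx2⟩
          calc ∫⁻ x in closedBall (0 : E 2) (2 / 2 ^ J), H x
              ≤ ∫⁻ x in (closedBall (0 : E 2) (2 / 2 ^ J) \ ball 0 (2 / 2 ^ J / 2)) ∪
                closedBall (0 : E 2) (2 / 2 ^ (J + 1)), H x := lintegral_mono_set hsub
            _ ≤ _ := lintegral_union_le _ _ _
            _ ≤ _ := by
                gcongr
                refine (annulus hD hbase ε hι hρ hρ1 hr2 hc hF).trans ?_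
                gcongr
                nlinarith
        · calc ∫⁻ x in closedBall (0 : E 2) (2 / 2 ^ J), H x ≤ 4 * S :=
                ball_small ε hι hρ hr0.le hc.le hF
            _ ≤ ENNReal.ofReal ((5 * D + 4) * L) * S := by
                gcongr
                rw [← ENNReal.ofReal_ofNat]
                apply ENNReal.ofReal_le_ofReal
                nlinarith
            _ ≤ _ := le_self_add
      calc (J : ℝ≥0∞) * (ENNReal.ofReal ((5 * D + 4) * L) * S) +
            ∫⁻ x in closedBall (0 : E 2) (2 / 2 ^ J), H x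
          ≤ (J : ℝ≥0∞) * (ENNReal.ofReal ((5 * D + 4) * L) * S) +
            (ENNReal.ofReal ((5 * D + 4) * L) * S +
              ∫⁻ x in closedBall (0 : E 2) (2 / 2 ^ (J + 1)), H x) := by gcongr
        _ = _ := by push_cast; ring
  have hlast : ∫⁻ x in closedBall (0 : E 2) (2 / 2 ^ I0), H x ≤
      ENNReal.ofReal ((5 * D + 4) * L) * S := by
    calc ∫⁻ x in closedBall (0 : E 2) (2 / 2 ^ I0), H x ≤ 4 * S := by
          refine ball_small ε hι hρ (by positivity) ?_ hF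
          rw [div_le_iff₀ (by positivity)]
          nlinarith
      _ ≤ ENNReal.ofReal ((5 * D + 4) * L) * S := by
          gcongr
          rw [← ENNReal.ofReal_ofNat]
          apply ENNReal.ofReal_le_ofReal
          nlinarith
  calc ∫⁻ v, NN ρ F v ^ 2 ∂(cu ι) ≤ _ := h1
    _ ≤ I0 * (ENNReal.ofReal ((5 * D + 4) * L) * S) +
        ∫⁻ x in closedBall (0 : E 2) (2 / 2 ^ I0), H x := hrad I0
    _ ≤ I0 * (ENNReal.ofReal ((5 * D + 4) * L) * S) + ENNReal.ofReal ((5 * D + 4) * L) * S := by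
        gcongr
    _ = (ENNReal.ofReal ((I0 + 1 : ℕ) : ℝ) * ENNReal.ofReal ((5 * D + 4) * L)) * S := by
        rw [ENNReal.ofReal_natCast]
        push_cast
        ring
    _ ≤ _ := by
        gcongr
        rw [← ENNReal.ofReal_mul (by positivity)]
        apply ENNReal.ofReal_le_ofReal
        have h5 : ((I0 + 1 : ℕ) : ℝ) ≤ 3 * L := by
          push_cast at hI0' ⊢
          linarith
        calc ((I0 + 1 : ℕ) : ℝ) * ((5 * D + 4) * L) ≤ 3 * L * ((5 * D + 4) * L) := by gcongr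
          _ = _ := by ring

end Pool.Agent.TH225.CK
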