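import Pool.Agent.TH225.CK.F2
import Pool.Agent.TH225.CK.D

set_option autoImplicit false

/-!
# The maximal estimate on the co-monotone class
-/

open MeasureTheory Set Filter Topology ENNReal NNReal Function

namespace Pool.Agent.TH225.CK

set_option linter.unusedSectionVars false

variable {ι : Type} [Fintype ι]

/-- `F` is a monotone function of one function of each block `k ≠ 0`, in the block `0` there is no
condition. -/
def CoMono (β : ι → ℕ) (F : (ι → ℝ) → ℝ≥0∞) : Prop :=
  ∃ u : ℕ → (ι → ℝ) → ℝ, (∀ k, Measurable (u k)) ∧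
    (∀ k x y, (∀ i, β i = k → x i = y i) → u k x = u k y) ∧
    ∀ x y, (∀ i, β i = 0 → x i = y i) → (∀ k, k ≠ 0 → u k y ≤ u k x) → F x ≤ F y

theorem card_block_le (β : ι → ℕ) (p : ι → Prop) [DecidablePred p] (k : ℕ) :
    Fintype.card {i : {i // ¬ p i} // β i = k} ≤ Fintype.card {i // β i = k} := by
  apply Fintype.card_le_of_injective
    (fun i : {i : {i // ¬ p i} // β i = k} => (⟨i.1.1, i.2⟩ : {i // β i = k}))
  intro a b h
  have h1 : a.1.1 = b.1.1 := congrArg (fun x : {i // β i = k} => x.1) h
  exact Subtype.ext (Subtype.ext h1)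

theorem coMono_GG {β : ι → ℕ} {F : (ι → ℝ) → ℝ≥0∞} (hC : CoMono β F) {k₁ : ℕ} (hk₁ : k₁ ≠ 0)
    {n : ℕ} {s : ℝ≥0∞} {r : ℝ} (hr : 0 ≤ r) :
    CoMono (fun i : {i // ¬ β i = k₁} => β i)
      (fun z => GG (fun i => β i = k₁) F n s z ^ r) := by
  obtain ⟨u, hum, hud, hF⟩ := hC
  refine ⟨fun k z => u k (gl (fun i => β i = k₁) 0 z), ?_, ?_, ?_⟩
  · intro k
    apply (hum k).comp
    exact (measurable_gl (fun i => β i = k₁)).comp (measurable_const.prodMk measurable_id)
  · intro k z z' hz
    apply hud
    intro i hi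
    unfold gl
    split_ifs with h
    · rfl
    · exact hz ⟨i, h⟩ hi
  · intro z z' h0 hu
    have hpt : ∀ x, F (gl (fun i => β i = k₁) x z) ≤ F (gl (fun i => β i = k₁) x z') := by
      intro x
      apply hF
      · intro i hi
        have hni : ¬ β i = k₁ := by rw [hi]; exact fun h => hk₁ h.symm
        simp only [gl, hni, dif_neg, not_false_eq_true]
        exact h0 ⟨i, hni⟩ hi
      · intro k hk
        by_cases hkk : k = k₁
        · apply le_of_eq
          apply hud
          intro i hi
          have : β i = k₁ := by rw [hi, hkk]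
          simp only [gl, this, dif_pos]
        · have e : ∀ w, u k (gl (fun i => β i = k₁) x w) =
              u k (gl (fun i => β i = k₁) 0 w) := by
            intro w
            apply hud
            intro i hi
            have : ¬ β i = k₁ := by rw [hi]; exact hkk
            simp only [gl, this, dif_neg, not_false_eq_true]
          rw [e, e]
          exact hu k hk
    unfold GG
    apply ENNReal.rpow_le_rpow _ hr
    apply ENNReal.rpow_le_rpow _ (by positivity)
    gcongr
    exact hpt _

theorem main_ind (N : ℕ) : ∃ (C : ℝ) (c : ℕ), 0 < C ∧ ∀ m : ℕ, 1 ≤ m → m ≤ N →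
    ∀ (ι : Type) [Fintype ι], Fintype.card ι = m → ∀ β : ι → ℕ,
    (∀ k, Fintype.card {i // β i = k} ≤ 2) → ∀ ρ : ℝ, 0 < ρ → ρ ≤ 1 →
    ∀ F : (ι → ℝ) → ℝ≥0∞, Measurable F → CoMono β F →
    ∫⁻ v, NN ρ F v ^ m ∂(cu ι) ≤
      ENNReal.ofReal (C * (1 + Real.log (1 / ρ)) ^ c) * ∫⁻ y, F y ^ m := by
  obtain ⟨C2, hC2, h2⟩ := base_two
  induction N with
  | zero => exact ⟨1, 0, one_pos, fun m h1 h2 => by omega⟩
  | succ N ih =>
    obtain ⟨C, c, hC, hIH⟩ := ih
    refine ⟨C + 6 ^ (N + 1) * ((2 * (2 + C2) + 4) * C) + 2 + C2, N + 1 + 2 + c, by positivity, ?_⟩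
    intro m hm1 hmN ι _ hcard β hβ ρ hρ hρ1 F hF hCo
    have hlog : 0 ≤ Real.log (1 / ρ) := Real.log_nonneg (by rw [le_div_iff₀ hρ]; linarith)
    set L := 1 + Real.log (1 / ρ) with hL
    have hL1 : 1 ≤ L := by linarith
    rcases Nat.lt_or_ge m (N + 1) with hlt | hge
    · refine (hIH m hm1 (by omega) ι hcard β hβ ρ hρ hρ1 F hF hCo).trans ?_
      rw [← hL]
      gcongr ?_ * _
      apply ENNReal.ofReal_le_ofReal
      have h3 : L ^ c ≤ L ^ (N + 1 + 2 + c) := pow_le_pow_right₀ hL1 (by omega)
      have h4 : 0 ≤ 6 ^ (N + 1) * ((2 * (2 + C2) + 4) * C) := by positivity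
      gcongr
      linarith
    have hmN' : m = N + 1 := le_antisymm hmN hge
    have hone : ∀ (κ : Type) [Fintype κ] (G : (κ → ℝ) → ℝ≥0∞) (d : ℕ), 1 ≤ d → d ≤ 2 →
        Fintype.card κ = d → Measurable G →
        ∫⁻ v, NN ρ G v ^ d ∂(cu κ) ≤ ENNReal.ofReal ((2 + C2) * L ^ 2) * ∫⁻ y, G y ^ d := by
      intro κ _ G d hd1 hd2 hκ hG
      have hd : d = 1 ∨ d = 2 := by omega
      rcases hd with rfl | rfl
      · refine (base_one hκ hρ hρ1 hG).trans ?_
        gcongr ?_ * _
        apply ENNReal.ofReal_le_ofReal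
        rw [← hL]
        nlinarith [sq_nonneg (L - 1), mul_nonneg hC2.le (sq_nonneg L)]
      · refine (h2 κ hκ ρ hρ hρ1 G hG).trans ?_
        gcongr ?_ * _
        apply ENNReal.ofReal_le_ofReal
        rw [← hL]
        gcongr
        linarith
    by_cases hblock : ∃ i₁ : ι, β i₁ ≠ 0 ∧ ∃ i₂ : ι, β i₂ ≠ β i₁
    · obtain ⟨i₁, hi₁, i₂, hi₂⟩ := hblock
      set k₁ := β i₁ with hk₁
      set p : ι → Prop := fun i => β i = k₁ with hp
      set d := Fintype.card {i // p i} with hd
      set k := Fintype.card {i // ¬ p i} with hk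
      have hd1 : 1 ≤ d := Fintype.card_pos_iff.2 ⟨⟨i₁, rfl⟩⟩
      have hk1 : 1 ≤ k := Fintype.card_pos_iff.2 ⟨⟨i₂, hi₂⟩⟩
      have hd2 : d ≤ 2 := hβ k₁
      have hdk : d + k = m := by
        rw [← hcard, ← Fintype.card_congr (Equiv.sumCompl p), Fintype.card_sum]
      obtain ⟨u, hum, hud, hFu⟩ := id hCo
      obtain ⟨I0, hI0, hI0'⟩ := Pool.Agent.W767.Sd.exists_I0 hρ hρ1
      have hstep := step (AX := ENNReal.ofReal ((2 + C2) * L ^ 2))
        (AZ := ENNReal.ofReal (C * L ^ c)) hρ p hF
        (u := fun x => u k₁ (gl p x 0)) ((hum k₁).comp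
          ((measurable_gl p).comp (measurable_id.prodMk measurable_const)))
        (by
          intro x x' z hxx
          apply hFu
          · intro i hi
            have : ¬ p i := by simp only [hp]; rw [hi]; exact fun h => hi₁ h.symm
            simp only [gl, this, dif_neg, not_false_eq_true]
          · intro k' hk'
            by_cases hkk : k' = k₁
            · subst hkk
              have e : ∀ w, u k₁ (gl p w z) = u k₁ (gl p w 0) := by
                intro w
                apply hud
                intro i hi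
                have : p i := hi
                simp only [gl, this, dif_pos]
              rw [e, e]
              exact hxx
            · apply le_of_eq
              apply hud
              intro i hi
              have : ¬ p i := by simp only [hp]; rw [hi]; exact hkk
              simp only [gl, this, dif_neg, not_false_eq_true])
        hd1 hk1 rfl
        (by
          intro R hR
          refine (hone _ (ind R) d hd1 hd2 rfl (measurable_ind hR)).trans ?_
          gcongr
          have : ∀ y, ind R y ^ d = ind R y := by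
            intro y
            unfold ind
            by_cases hy : y ∈ R
            · simp [hy]
            · rw [indicator_of_notMem hy, zero_pow (by omega)]
          simp only [this]
          unfold ind
          rw [lintegral_indicator_const hR, one_mul])
        (by
          intro s hs0 hst
          exact hIH k hk1 (by omega) _ rfl _
            (fun k' => (card_block_le β p k').trans (hβ k')) ρ hρ hρ1 _
            ((measurable_GG p hF (d + k) s).pow_const _)
            (coMono_GG hCo hi₁ (by positivity)))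
        (I := 2 * I0)
        (by
          have h3 : (1 : ℝ) ≤ 2 ^ (2 * I0) * (2 * ρ) ^ d := by
            have hx : 1 ≤ 2 ^ I0 * (2 * ρ) := by linarith
            have h1 : (1 : ℝ) ≤ (2 ^ I0 * (2 * ρ)) ^ d := one_le_pow₀ hx
            have h2 : ((2 : ℝ) ^ I0) ^ d ≤ 2 ^ (2 * I0) := by
              rw [← pow_mul]
              apply pow_le_pow_right₀ (by norm_num)
              rw [mul_comm]
              exact Nat.mul_le_mul_right _ hd2
            calc (1 : ℝ) ≤ (2 ^ I0 * (2 * ρ)) ^ d := h1
              _ = (2 ^ I0) ^ d * (2 * ρ) ^ d := mul_pow _ _ _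
              _ ≤ _ := by gcongr
          have h4 : ENNReal.ofReal (2 ^ (2 * I0) * (2 * ρ) ^ d) =
              2 ^ (2 * I0) * (ENNReal.ofReal (2 * ρ)) ^ d := by
            rw [ENNReal.ofReal_mul (by positivity), ENNReal.ofReal_pow (by norm_num),
              ENNReal.ofReal_pow (by positivity), ENNReal.ofReal_ofNat]
          rw [← h4, ← ENNReal.ofReal_one]
          exact ENNReal.ofReal_le_ofReal h3)
      rw [hdk] at hstep
      refine hstep.trans ?_
      gcongr ?_ * _
      have e1 : ((2 * I0 + 2 : ℕ) : ℝ≥0∞) ≤ ENNReal.ofReal (6 * L) := by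
        rw [← ENNReal.ofReal_natCast]
        apply ENNReal.ofReal_le_ofReal
        push_cast at hI0' ⊢
        have : (0:ℝ) ≤ I0 := by positivity
        linarith
      have e2 : (2 : ℝ≥0∞) * ENNReal.ofReal ((2 + C2) * L ^ 2) + 2 ^ d ≤
          ENNReal.ofReal ((2 * (2 + C2) + 4) * L ^ 2) := by
        have e3 : (2 : ℝ≥0∞) ^ d ≤ ENNReal.ofReal (4 * L ^ 2) := by
          calc (2 : ℝ≥0∞) ^ d ≤ 2 ^ 2 := pow_le_pow_right₀ (by norm_num) hd2
            _ = ENNReal.ofReal 4 := by rw [ENNReal.ofReal_ofNat]; norm_num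
            _ ≤ _ := by
              apply ENNReal.ofReal_le_ofReal
              nlinarith
        calc (2 : ℝ≥0∞) * ENNReal.ofReal ((2 + C2) * L ^ 2) + 2 ^ d
            ≤ ENNReal.ofReal (2 * ((2 + C2) * L ^ 2)) + ENNReal.ofReal (4 * L ^ 2) := by
              rw [ENNReal.ofReal_mul (by norm_num : (0:ℝ) ≤ 2), ENNReal.ofReal_ofNat]
              gcongr
          _ = _ := by
              rw [← ENNReal.ofReal_add (by positivity) (by positivity)]
              congr 1
              ring
      calc ((2 * I0 + 2 : ℕ) : ℝ≥0∞) ^ m *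
            ((2 * ENNReal.ofReal ((2 + C2) * L ^ 2) + 2 ^ d) * ENNReal.ofReal (C * L ^ c))
          ≤ ENNReal.ofReal (6 * L) ^ m * (ENNReal.ofReal ((2 * (2 + C2) + 4) * L ^ 2) *
            ENNReal.ofReal (C * L ^ c)) := by gcongr
        _ = ENNReal.ofReal (6 ^ m * ((2 * (2 + C2) + 4) * C) * L ^ (m + 2 + c)) := by
            rw [← ENNReal.ofReal_pow (by positivity), ← ENNReal.ofReal_mul (by positivity),
              ← ENNReal.ofReal_mul (by positivity)]
            congr 1
            ring
        _ ≤ _ := by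
            apply ENNReal.ofReal_le_ofReal
            rw [hmN']
            gcongr
            linarith
    · push Not at hblock
      have hm2 : m ≤ 2 := by
        by_cases hne : ∃ i₁ : ι, β i₁ ≠ 0
        · obtain ⟨i₁, hi₁⟩ := hne
          have := hβ (β i₁)
          rw [Fintype.card_congr (Equiv.subtypeUnivEquiv (hblock i₁ hi₁)), hcard] at this
          exact this
        · push Not at hne
          have := hβ 0
          rw [Fintype.card_congr (Equiv.subtypeUnivEquiv hne), hcard] at this
          exact this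
      refine (hone ι F m hm1 hm2 hcard hF).trans ?_
      gcongr ?_ * _
      apply ENNReal.ofReal_le_ofReal
      have h3 : L ^ 2 ≤ L ^ (N + 1 + 2 + c) := pow_le_pow_right₀ hL1 (by omega)
      have h4 : 0 ≤ 6 ^ (N + 1) * ((2 * (2 + C2) + 4) * C) := by positivity
      gcongr
      linarith

end Pool.Agent.TH225.CK
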