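import Pool.Agent.TH225.CK.G
import Pool.Agent.H742R2.Kk.Sphere

set_option autoImplicit false

/-!
# From the box average to tubes and from the cube to the sphere
-/

open MeasureTheory Set Filter Topology ENNReal NNReal Function Metric

namespace Pool.Agent.TH225.CK

open Pool.Agent.H742R2.Kk (E)

set_option linter.unusedSectionVars false

/-- Polar coordinates for the lower Lebesgue integral. -/
theorem lintegral_polar {V : Type*} [NormedAddCommGroup V] [NormedSpace ℝ V]
    [FiniteDimensional ℝ V] [MeasurableSpace V] [BorelSpace V] [Nontrivial V] (μ : Measure V)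
    [μ.IsAddHaarMeasure] {f : V → ℝ≥0∞} (hf : Measurable f) :
    ∫⁻ x, f x ∂μ = ∫⁻ u : sphere (0 : V) 1, (∫⁻ τ in Ioi (0:ℝ),
      ENNReal.ofReal (τ ^ (Module.finrank ℝ V - 1)) * f (τ • (u : V))) ∂μ.toSphere := by
  have h1 : ∫⁻ x, f x ∂μ = ∫⁻ x : (({0}ᶜ : Set V)), f x ∂(μ.comap (↑)) := by
    rw [lintegral_subtype_comap (measurableSet_singleton _).compl f, restrict_compl_singleton]
  have h2 : ∫⁻ x : (({0}ᶜ : Set V)), f x ∂(μ.comap (↑)) =
      ∫⁻ p : sphere (0:V) 1 × Ioi (0:ℝ), f ((p.2 : ℝ) • (p.1 : V))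
        ∂(μ.toSphere.prod (Measure.volumeIoiPow (Module.finrank ℝ V - 1))) := by
    rw [← μ.measurePreserving_homeomorphUnitSphereProd.lintegral_comp_emb
      (Homeomorph.measurableEmbedding _)]
    refine lintegral_congr (fun x => ?_)
    rw [← homeomorphUnitSphereProd_symm_apply_coe, Homeomorph.symm_apply_apply]
  have hmeas : Measurable (fun p : sphere (0:V) 1 × Ioi (0:ℝ) => f ((p.2 : ℝ) • (p.1 : V))) := by
    refine hf.comp ?_
    exact (measurable_subtype_coe.comp measurable_snd).smul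
      (measurable_subtype_coe.comp measurable_fst)
  rw [h1, h2, lintegral_prod _ hmeas.aemeasurable]
  refine lintegral_congr (fun u => ?_)
  have hmu : Measurable (fun τ : Ioi (0:ℝ) => f ((τ : ℝ) • (u : V))) :=
    hmeas.comp (measurable_const.prodMk measurable_id)
  rw [Measure.volumeIoiPow, lintegral_withDensity_eq_lintegral_mul _ (by fun_prop) hmu]
  exact lintegral_subtype_comap measurableSet_Ioi
    (fun τ : ℝ => ENNReal.ofReal (τ ^ (Module.finrank ℝ V - 1)) * f (τ • (u : V)))

/-- The average over a shell dominates the average over the sphere. -/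
theorem shell (m : ℕ) {g : E (m + 1) → ℝ≥0∞} (hg : Measurable g) :
    ∫⁻ e : sphere (0 : E (m + 1)) 1, (∫⁻ t in Icc (1 / 2 : ℝ) 1, g (t • (e : E (m + 1))))
      ∂(volume : Measure (E (m + 1))).toSphere ≤
      ENNReal.ofReal (2 ^ m) * ∫⁻ x in closedBall (0 : E (m + 1)) 1, g x := by
  rw [← lintegral_indicator measurableSet_closedBall,
    lintegral_polar volume (hg.indicator measurableSet_closedBall), ← lintegral_const_mul']
  swap
  · exact ENNReal.ofReal_ne_top
  apply lintegral_mono
  intro e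
  have hfin : Module.finrank ℝ (E (m + 1)) - 1 = m := by simp
  beta_reduce
  rw [hfin, ← lintegral_const_mul' _ _ ENNReal.ofReal_ne_top]
  calc ∫⁻ t in Icc (1 / 2 : ℝ) 1, g (t • (e : E (m + 1)))
      ≤ ∫⁻ t in Icc (1 / 2 : ℝ) 1, ENNReal.ofReal (2 ^ m) * (ENNReal.ofReal (t ^ m) *
          (closedBall (0 : E (m + 1)) 1).indicator g (t • (e : E (m + 1)))) := by
        apply setLIntegral_mono' measurableSet_Icc
        intro t ht
        have ht0 : 0 < t := by linarith [ht.1]
        have hmem : t • (e : E (m + 1)) ∈ closedBall (0 : E (m + 1)) 1 := by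
          rw [mem_closedBall_zero_iff, norm_smul, Real.norm_of_nonneg ht0.le]
          have : ‖(e : E (m + 1))‖ = 1 := by simp
          rw [this, mul_one]
          exact ht.2
        rw [indicator_of_mem hmem, ← mul_assoc, ← ENNReal.ofReal_mul (by positivity), ← mul_pow]
        have h1 : (1 : ℝ) ≤ (2 * t) ^ m := one_le_pow₀ (by linarith [ht.1])
        calc g (t • (e : E (m + 1))) = 1 * g (t • (e : E (m + 1))) := (one_mul _).symm
          _ ≤ _ := by
            gcongr
            rw [← ENNReal.ofReal_one]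
            exact ENNReal.ofReal_le_ofReal h1
    _ ≤ _ := by
        apply lintegral_mono_set
        intro t ht
        have := ht.1
        rw [mem_Ioi]
        linarith

theorem TT_tube {n : ℕ} {δ : ℝ} (hδ : 0 < δ) (hδ1 : δ ≤ 1) {e a x : E n} (he : ‖e‖ = 1)
    (hx1 : |inner ℝ (x - a) e| ≤ 1 / 2)
    (hx2 : ‖(x - a) - (inner ℝ (x - a) e : ℝ) • e‖ ≤ δ) {q : Fin n → ℝ}
    (hq : ∀ i, |a i - q i| ≤ δ) {t : ℝ} (ht : t ∈ Icc (1 / 2 : ℝ) 1) :
    ENNReal.ofReal δ ≤ TT (3 * δ) (fun i => (t • e) i) q (fun i => x i) := by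
  obtain ⟨ht1, ht2⟩ := ht
  have ht0 : 0 < t := by linarith
  set s : ℝ := inner ℝ (x - a) e with hs
  set w : E n := (x - a) - s • e with hw
  obtain ⟨hs1, hs2⟩ := abs_le.1 hx1
  -- the good times
  have hgood : ∀ r : ℝ, |s - r * t| ≤ δ →
      (fun i => x i) - (q + r • fun i => (t • e) i) ∈ box (Fin n) (3 * δ) := by
    intro r hr i _
    have e1 : ((fun i => x i) - (q + r • fun i => (t • e) i) : Fin n → ℝ) i =
        (a i - q i) + (s - r * t) * e i + w i := by
      simp only [Pi.sub_apply, Pi.add_apply, Pi.smul_apply, smul_eq_mul, PiLp.smul_apply, hw,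
        PiLp.sub_apply]
      ring
    rw [e1]
    apply abs_le.1
    have h1 : |e i| ≤ 1 := by
      have := PiLp.norm_apply_le e i
      rwa [he, Real.norm_eq_abs] at this
    have h2 : |w i| ≤ δ := by
      have := PiLp.norm_apply_le w i
      rw [Real.norm_eq_abs] at this
      exact this.trans hx2
    have h3 : |(s - r * t) * e i| ≤ δ := by
      rw [abs_mul]
      calc |s - r * t| * |e i| ≤ δ * 1 := by gcongr
        _ = δ := mul_one _
    calc |(a i - q i) + (s - r * t) * e i + w i| ≤ |(a i - q i) + (s - r * t) * e i| + |w i| :=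
          abs_add_le _ _
      _ ≤ |a i - q i| + |(s - r * t) * e i| + |w i| := by
          gcongr
          exact abs_add_le _ _
      _ ≤ 3 * δ := by linarith [hq i]
  -- an interval of good times
  have hint : ∃ b : ℝ, Icc b (b + δ) ⊆ Icc (-1 : ℝ) 1 ∧ ∀ r ∈ Icc b (b + δ), |s - r * t| ≤ δ := by
    have hst : |s / t| ≤ 1 := by
      rw [abs_div, abs_of_pos ht0, div_le_one ht0]
      linarith
    obtain ⟨hst1, hst2⟩ := abs_le.1 hst
    have e2 : s / t * t = s := div_mul_cancel₀ s ht0.ne'
    rcases le_total s 0 with h | h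
    · have h0 : s / t ≤ 0 := div_nonpos_of_nonpos_of_nonneg h ht0.le
      refine ⟨s / t, Icc_subset_Icc hst1 (by linarith), ?_⟩
      intro r hr
      have e3 : s - r * t = -((r - s / t) * t) := by rw [sub_mul, e2]; ring
      rw [e3, abs_neg, abs_mul, abs_of_pos ht0, abs_of_nonneg (by linarith [hr.1])]
      calc (r - s / t) * t ≤ δ * 1 := by
            gcongr
            linarith [hr.2]
        _ = δ := mul_one _
    · have h0 : 0 ≤ s / t := div_nonneg h ht0.le
      refine ⟨s / t - δ, Icc_subset_Icc (by linarith) (by linarith), ?_⟩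
      intro r hr
      have e3 : s - r * t = (s / t - r) * t := by rw [sub_mul, e2]
      rw [e3, abs_mul, abs_of_pos ht0, abs_of_nonneg (by linarith [hr.2])]
      calc (s / t - r) * t ≤ δ * 1 := by
            gcongr
            linarith [hr.1]
        _ = δ := mul_one _
  obtain ⟨b, hb1, hb2⟩ := hint
  unfold TT
  calc ENNReal.ofReal δ = ∫⁻ _ in Icc b (b + δ), 1 := by
        rw [lintegral_one, Measure.restrict_apply_univ, Real.volume_Icc]
        congr 1
        ring
    _ ≤ ∫⁻ r in Icc b (b + δ), ind (box (Fin n) (3 * δ))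
          ((fun i => x i) - (q + r • fun i => (t • e) i)) := by
        apply setLIntegral_mono' measurableSet_Icc
        intro r hr
        have := hgood r (hb2 r hr)
        simp only [ind]
        rw [indicator_of_mem this]
    _ ≤ _ := lintegral_mono_set hb1

/-- The integral over a tube. -/
theorem int_tube {n : ℕ} {δ : ℝ} (hδ : 0 < δ) (hδ1 : δ ≤ 1) {e a : E n} (he : ‖e‖ = 1)
    {G : (Fin n → ℝ) → ℝ≥0∞} (hG : Measurable G) {t : ℝ} (ht : t ∈ Icc (1 / 2 : ℝ) 1) :
    ∫⁻ y in {y : E n | |inner ℝ (y - a) e| ≤ 1 / 2 ∧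
      ‖(y - a) - (inner ℝ (y - a) e : ℝ) • e‖ ≤ δ}, G (fun i => y i) ≤
      ENNReal.ofReal (2 * (6 * δ) ^ n / δ) * NN (3 * δ) G (fun i => (t • e) i) := by
  have hq : ∀ i, ∃ q : ℚ, |a i - q| ≤ δ := by
    intro i
    obtain ⟨q, hq⟩ := exists_rat_near (a i) hδ
    exact ⟨q, hq.le⟩
  choose q hq using hq
  set S := {y : E n | |inner ℝ (y - a) e| ≤ 1 / 2 ∧
      ‖(y - a) - (inner ℝ (y - a) e : ℝ) • e‖ ≤ δ} with hS
  have hSc : IsClosed S := by
    have c1 : Continuous (fun y : E n => |(inner ℝ (y - a) e : ℝ)|) := by fun_prop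
    have c2 : Continuous (fun y : E n => ‖(y - a) - (inner ℝ (y - a) e : ℝ) • e‖) := by fun_prop
    exact (isClosed_le c1 continuous_const).inter (isClosed_le c2 continuous_const)
  have hmp : MeasurePreserving (fun y : E n => (fun i => y i : Fin n → ℝ)) :=
    PiLp.volume_preserving_ofLp (Fin n)
  have hδ0 : ENNReal.ofReal δ ≠ 0 := by simpa using hδ
  have h1 : ENNReal.ofReal δ * ∫⁻ y in S, G (fun i => y i) ≤
      ∫⁻ y, G y * TT (3 * δ) (fun i => (t • e) i) (fun i => (q i : ℝ)) y := by
    have hmF : Measurable (fun y => G y * TT (3 * δ) (fun i => (t • e) i)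
        (fun i => (q i : ℝ)) y) := hG.mul (measurable_TT _ _ _)
    rw [← lintegral_const_mul' _ _ ENNReal.ofReal_ne_top, ← hmp.lintegral_comp hmF]
    calc ∫⁻ y in S, ENNReal.ofReal δ * G (fun i => y i)
        ≤ ∫⁻ y in S, G (fun i => y i) * TT (3 * δ) (fun i => (t • e) i)
            (fun i => (q i : ℝ)) (fun i => y i) := by
          apply setLIntegral_mono' hSc.measurableSet
          intro y hy
          rw [mul_comm]
          gcongr
          exact TT_tube hδ hδ1 he hy.1 hy.2 hq ht
      _ ≤ _ := setLIntegral_le_lintegral _ _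
  have h2 := Av_eq (ρ := 3 * δ) (by positivity) hG (fun i => (t • e) i) (fun i => (q i : ℝ))
  have h3 : ∫⁻ y, G y * TT (3 * δ) (fun i => (t • e) i) (fun i => (q i : ℝ)) y =
      ENNReal.ofReal (2 * (6 * δ) ^ n) *
        Av (3 * δ) G (fun i => (t • e) i) (fun i => (q i : ℝ)) := by
    rw [h2, ← mul_assoc, ← mul_assoc, Fintype.card_fin]
    have e5 : ENNReal.ofReal (2 * (6 * δ) ^ n) * (ENNReal.ofReal 2)⁻¹ *
        (ENNReal.ofReal (2 * (3 * δ)))⁻¹ ^ n = 1 := by
      rw [← ENNReal.ofReal_inv_of_pos (by norm_num), ← ENNReal.ofReal_inv_of_pos (by positivity),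
        ← ENNReal.ofReal_pow (by positivity), ← ENNReal.ofReal_mul (by positivity),
        ← ENNReal.ofReal_mul (by positivity), ← ENNReal.ofReal_one]
      congr 1
      have e6 : (2 * (3 * δ)) = 6 * δ := by ring
      rw [e6, inv_pow]
      field_simp
    rw [e5, one_mul]
  calc ∫⁻ y in S, G (fun i => y i)
      = (ENNReal.ofReal δ)⁻¹ * (ENNReal.ofReal δ * ∫⁻ y in S, G (fun i => y i)) := by
        rw [← mul_assoc, ENNReal.inv_mul_cancel hδ0 ENNReal.ofReal_ne_top, one_mul]
    _ ≤ (ENNReal.ofReal δ)⁻¹ * (ENNReal.ofReal (2 * (6 * δ) ^ n) *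
        NN (3 * δ) G (fun i => (t • e) i)) := by
        refine mul_le_mul' le_rfl (h1.trans ?_)
        rw [h3]
        exact mul_le_mul' le_rfl (Av_le_NN _ q)
    _ = _ := by
        rw [← mul_assoc, ← ENNReal.ofReal_inv_of_pos hδ, ← ENNReal.ofReal_mul (by positivity)]
        congr 2
        field_simp

end Pool.Agent.TH225.CK
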